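import Mathlib
import Pool.Agent.H41.TS.Flow
import Pool.Agent.H41.TS.Orb

/-!
# The slice along an orbit, for a general evaluation of the base

A variant of `Pool.Agent.H41.TS.orbit_main` (helper41): the ring map `φ : ℂ[a,b] → A` with
`φ p = κ`, `φ q = μ κ + β` is given, and the normal form of `D z` has a denominator `b`
such that `φ b` is invertible.
-/

set_option autoImplicit false
set_option linter.unusedSectionVars false

open MvPolynomial

namespace Pool.Agent.H13.TD

open Pool.Agent.H41.TS

variable {A : Type} [CommRing A] [Algebra ℂ A]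

theorem orbit_gen {p q : RR} {D : Derivation RR BB BB}
    (hx : D (X 0) = C p) (hy : D (X 1) = C q) {ρ : MvPolynomial (Fin 3) ℂ} {b : RR} {w : SS}
    (hz : C b * D (X 2) = C b * inc (nf p q ρ) + D (inc w)) {s : BB} (hs : D s = 1)
    (U V : Subalgebra ℂ A) {κ κi : A} (hκ : κ * κi = 1) (β h : A) (μ : ℂ)
    (φ : RR →ₐ[ℂ] A) (hφp : φ p = κ) (hφq : φ q = algebraMap ℂ A μ * κ + β)
    (hφU : ∀ r, φ r ∈ U) (hφV : ∀ r, φ r ∈ V) {bi : A} (hbi : φ b * bi = 1)
    (hbiU : bi ∈ U) (hbiV : bi ∈ V) (hUh : h ∈ U)
    (hVκi : κi ∈ V) (hVβ : β ∈ V) (hVβh : β * h ∈ V)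
    (hmem : ∀ d ∈ ρ.support, (β * h) ^ d 0 * h ^ (d 1 + d 2) ∈ V)
    (hG : ∑ d ∈ ρ.support, algebraMap ℂ A (ρ.coeff d * (μ ^ d 2 / ((d 1 : ℂ) + d 2 + 1))) *
      ((β * h) ^ d 0 * h ^ (d 1 + d 2)) = 0) :
    ∃ u ∈ U, ∃ v ∈ V, κi * h = u + v := by
  obtain ⟨W, hW, hW0, hWT⟩ := wint hκ β h μ V hVκi hVβ hVβh ρ hmem hG
  set z₀ : A := - W.eval (κi * h) with hz₀
  have hz₀V : z₀ ∈ V := neg_mem hWT
  set φC : RR →+* Polynomial A := (Polynomial.C (R := A)).comp φ.toRingHom with hφC
  set yy : Polynomial A := Polynomial.C (algebraMap ℂ A μ) * xt κ + yt κi β h with hyy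
  have hφCr : ∀ r, φC r = Polynomial.C (φ r) := fun r => rfl
  set E' : SS →+* Polynomial A := eval₂Hom φC ![xt κ, yy] with hE'
  have hE'C : ∀ r, E' (C r) = Polynomial.C (φ r) := fun r => by rw [hE', eval₂Hom_C, hφCr]
  have hE'0 : E' (X 0) = xt κ := by rw [hE', eval₂Hom_X']; rfl
  have hE'1 : E' (X 1) = yy := by rw [hE', eval₂Hom_X']; rfl
  have hdyy : Polynomial.derivative yy = Polynomial.C (algebraMap ℂ A μ * κ + β) := by
    rw [hyy, Polynomial.derivative_add, Polynomial.derivative_mul, Polynomial.derivative_C,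
      d_xt, d_yt, zero_mul, zero_add, Polynomial.C_add, Polynomial.C_mul]
  have hcommE' : ∀ f, E' (D0 p q f) = Polynomial.derivative (E' f) := by
    intro f
    refine comm_of_gens E' (dd A) (D0 p q) ?_ ?_ f
    · intro r
      rw [hE'C, dd_apply, Polynomial.derivative_C]
    · intro i
      rw [dd_apply]
      fin_cases i
      · simp only [Fin.zero_eta]
        rw [D0_X0, hE'C, hE'0, d_xt, hφp]
      · simp only [Fin.mk_one]
        rw [D0_X1, hE'C, hE'1, hdyy, hφq]
  have hnf : E' (nf p q ρ) = aeval ![Polynomial.C (β * h), xt κ, yy] ρ := by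
    have h1 : (E'.comp (nf p q).toRingHom) = (aeval (R := ℂ)
        ![Polynomial.C (β * h), xt κ, yy]).toRingHom := by
      refine MvPolynomial.ringHom_ext ?_ ?_
      · intro c
        have h2 : (nf p q).toRingHom (C c) = C (C c) := (nf p q).commutes c
        rw [RingHom.comp_apply, h2, hE'C]
        have h3 : φ (C c) = algebraMap ℂ A c := φ.commutes c
        rw [h3]
        exact ((aeval (R := ℂ) ![Polynomial.C (β * h), xt κ, yy]).commutes c).symm
      · intro i
        rw [RingHom.comp_apply]
        have h4 : ∀ g, (nf p q).toRingHom g = nf p q g := fun g => rfl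
        have h5 : ∀ g, (aeval (R := ℂ) ![Polynomial.C (β * h), xt κ, yy]).toRingHom g =
          aeval (R := ℂ) ![Polynomial.C (β * h), xt κ, yy] g := fun g => rfl
        rw [h4, h5, aeval_X]
        fin_cases i
        · simp only [Fin.zero_eta]
          rw [nf_X0, Lel, map_sub, map_mul, map_mul, hE'C, hE'C, hE'0, hE'1, hφp, hφq, hyy]
          simp only [Matrix.cons_val_zero]
          rw [xt, yt, Polynomial.C_add, Polynomial.C_mul, Polynomial.C_mul, Polynomial.C_mul]
          have hC : (Polynomial.C κ * Polynomial.C κi : Polynomial A) = 1 := by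
            rw [← Polynomial.C_mul, hκ, Polynomial.C_1]
          linear_combination (Polynomial.C β * Polynomial.C h) * hC
        · simp only [Fin.mk_one]
          rw [nf_X1, hE'0]
          rfl
        · simp only [Fin.reduceFinMk]
          rw [nf_X2, hE'1]
          rfl
    exact RingHom.congr_fun h1 ρ
  set E : BB →+* Polynomial A :=
    eval₂Hom φC ![xt κ, yy, Polynomial.C z₀ + Polynomial.C bi * E' w + W] with hE
  have hEC : ∀ r, E (C r) = Polynomial.C (φ r) := fun r => by rw [hE, eval₂Hom_C, hφCr]
  have hE0 : E (X 0) = xt κ := by rw [hE, eval₂Hom_X']; rfl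
  have hE1 : E (X 1) = yy := by rw [hE, eval₂Hom_X']; rfl
  have hE2 : E (X 2) = Polynomial.C z₀ + Polynomial.C bi * E' w + W := by
    rw [hE, eval₂Hom_X']; rfl
  have hEinc : ∀ f, E (inc f) = E' f := by
    intro f
    have h1 : E.comp (inc : SS →ₐ[RR] BB).toRingHom = E' := by
      refine MvPolynomial.ringHom_ext ?_ ?_
      · intro r
        have h2 : (inc : SS →ₐ[RR] BB).toRingHom (C r) = C r := inc_C r
        rw [RingHom.comp_apply, h2, hEC, hE'C]
      · intro i
        rw [RingHom.comp_apply]
        have h4 : ∀ g, (inc : SS →ₐ[RR] BB).toRingHom g = inc g := fun g => rfl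
        rw [h4]
        fin_cases i
        · simp only [Fin.zero_eta]
          rw [inc_X0, hE0, hE'0]
        · simp only [Fin.mk_one]
          rw [inc_X1, hE1, hE'1]
    exact RingHom.congr_fun h1 f
  have hbiC : (Polynomial.C (φ b) * Polynomial.C bi : Polynomial A) = 1 := by
    rw [← Polynomial.C_mul, hbi, Polynomial.C_1]
  have hDz : E (D (X 2)) = E' (nf p q ρ) +
      Polynomial.C bi * Polynomial.derivative (E' w) := by
    have h1 := congrArg E hz
    rw [map_mul, map_add, map_mul, hEinc, ← inc_D0 hx hy, hEinc, hcommE', hEC] at h1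
    linear_combination (Polynomial.C bi) * h1 + (E' (nf p q ρ) - E (D (X 2))) * hbiC
  have hcommE : ∀ f, E (D f) = Polynomial.derivative (E f) := by
    intro f
    refine comm_of_gens E (dd A) D ?_ ?_ f
    · intro r
      rw [hEC, dd_apply, Polynomial.derivative_C]
    · intro i
      rw [dd_apply]
      fin_cases i
      · simp only [Fin.zero_eta]
        rw [hx, hEC, hE0, d_xt, hφp]
      · simp only [Fin.mk_one]
        rw [hy, hEC, hE1, hdyy, hφq]
      · simp only [Fin.reduceFinMk]
        rw [hDz, hnf, hE2, Polynomial.derivative_add, Polynomial.derivative_add,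
          Polynomial.derivative_C, Polynomial.derivative_mul, Polynomial.derivative_C, hW]
        ring
  have hds : Polynomial.derivative (E s) = 1 := by rw [← hcommE, hs, map_one]
  have hfin := eval_of_deriv_one (E s) hds (κi * h)
  -- membership
  have hU : ∀ f : BB, (E f).eval (κi * h) ∈ U := by
    have hE'U : ∀ f : SS, (E' f).eval (κi * h) ∈ U := by
      intro f
      refine mem_of_gens ((Polynomial.evalRingHom (κi * h)).comp E') U ?_ ?_ f
      · intro r
        rw [RingHom.comp_apply, hE'C, Polynomial.coe_evalRingHom, Polynomial.eval_C]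
        exact hφU r
      · intro i
        rw [RingHom.comp_apply, Polynomial.coe_evalRingHom]
        fin_cases i
        · simp only [Fin.zero_eta]
          rw [hE'0, xt_T hκ]
          exact hUh
        · simp only [Fin.mk_one]
          rw [hE'1, hyy, Polynomial.eval_add, Polynomial.eval_mul, xt_T hκ, yt_T,
            Polynomial.eval_C, add_zero]
          exact mul_mem (U.algebraMap_mem μ) hUh
    intro f
    refine mem_of_gens ((Polynomial.evalRingHom (κi * h)).comp E) U ?_ ?_ f
    · intro r
      rw [RingHom.comp_apply, hEC, ← hE'C]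
      exact hE'U (C r)
    · intro i
      rw [RingHom.comp_apply, Polynomial.coe_evalRingHom]
      fin_cases i
      · simp only [Fin.zero_eta]
        rw [hE0, ← hE'0]
        exact hE'U (X 0)
      · simp only [Fin.mk_one]
        rw [hE1, ← hE'1]
        exact hE'U (X 1)
      · simp only [Fin.reduceFinMk]
        rw [hE2, Polynomial.eval_add, Polynomial.eval_add, Polynomial.eval_C,
          Polynomial.eval_mul, Polynomial.eval_C, hz₀]
        have e : -Polynomial.eval (κi * h) W + bi * Polynomial.eval (κi * h) (E' w) +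
            Polynomial.eval (κi * h) W = bi * Polynomial.eval (κi * h) (E' w) := by ring
        rw [e]
        exact mul_mem hbiU (hE'U w)
  have hV : ∀ f : BB, (E f).eval 0 ∈ V := by
    have hE'V : ∀ f : SS, (E' f).eval 0 ∈ V := by
      intro f
      refine mem_of_gens ((Polynomial.evalRingHom (0 : A)).comp E') V ?_ ?_ f
      · intro r
        rw [RingHom.comp_apply, hE'C, Polynomial.coe_evalRingHom, Polynomial.eval_C]
        exact hφV r
      · intro i
        rw [RingHom.comp_apply, Polynomial.coe_evalRingHom]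
        fin_cases i
        · simp only [Fin.zero_eta]
          rw [hE'0, xt_zero]
          exact zero_mem _
        · simp only [Fin.mk_one]
          rw [hE'1, hyy, Polynomial.eval_add, Polynomial.eval_mul, xt_zero, yt_zero, mul_zero,
            zero_add]
          exact neg_mem (mul_mem hVβh hVκi)
    intro f
    refine mem_of_gens ((Polynomial.evalRingHom (0 : A)).comp E) V ?_ ?_ f
    · intro r
      rw [RingHom.comp_apply, hEC, ← hE'C]
      exact hE'V (C r)
    · intro i
      rw [RingHom.comp_apply, Polynomial.coe_evalRingHom]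
      fin_cases i
      · simp only [Fin.zero_eta]
        rw [hE0, ← hE'0]
        exact hE'V (X 0)
      · simp only [Fin.mk_one]
        rw [hE1, ← hE'1]
        exact hE'V (X 1)
      · simp only [Fin.reduceFinMk]
        rw [hE2, Polynomial.eval_add, Polynomial.eval_add, Polynomial.eval_C,
          Polynomial.eval_mul, Polynomial.eval_C, hW0, add_zero]
        exact add_mem hz₀V (mul_mem hbiV (hE'V w))
  refine ⟨(E s).eval (κi * h), hU s, - (E s).eval 0, neg_mem (hV s), ?_⟩
  rw [hfin]
  ring

end Pool.Agent.H13.TD
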