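import Mathlib
import Pool.Agent.H13.TD.Orb

/-!
# The analytic local inverse of a pair of polynomials with non-zero Jacobian
-/

set_option autoImplicit false

open MvPolynomial

namespace Pool.Agent.H13.TD

open Pool.Agent.H41.TS

/-- derivative of a polynomial function -/
theorem hasFDerivAt_eval (f : RR) (m : Fin 2 → ℂ) :
    HasFDerivAt (fun x : Fin 2 → ℂ => eval x f)
      (eval m (pderiv 0 f) • (ContinuousLinearMap.proj 0 : (Fin 2 → ℂ) →L[ℂ] ℂ) +
        eval m (pderiv 1 f) • (ContinuousLinearMap.proj 1 : (Fin 2 → ℂ) →L[ℂ] ℂ)) m := by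
  induction f using MvPolynomial.induction_on with
  | C r =>
    have e : (eval m (pderiv 0 (C r : RR)) • (ContinuousLinearMap.proj 0 : (Fin 2 → ℂ) →L[ℂ] ℂ) +
        eval m (pderiv 1 (C r : RR)) • (ContinuousLinearMap.proj 1 : (Fin 2 → ℂ) →L[ℂ] ℂ)) = 0 := by
      ext v
      simp
    rw [e]
    simp only [eval_C]
    exact hasFDerivAt_const _ _
  | add f g hf hg =>
    have e := hf.add hg
    refine (e.congr_fderiv ?_).congr_of_eventuallyEq (Filter.Eventually.of_forall fun x => ?_)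
    · ext v
      simp
      ring
    · simp
  | mul_X f i hf =>
    have hi : HasFDerivAt (fun x : Fin 2 → ℂ => x i)
        (ContinuousLinearMap.proj i : (Fin 2 → ℂ) →L[ℂ] ℂ) m :=
      (ContinuousLinearMap.proj i : (Fin 2 → ℂ) →L[ℂ] ℂ).hasFDerivAt
    have e := hf.mul hi
    refine (e.congr_fderiv ?_).congr_of_eventuallyEq (Filter.Eventually.of_forall fun x => ?_)
    · ext v
      rw [pderiv_mul, pderiv_mul, pderiv_X, pderiv_X, map_add, map_add, map_mul, map_mul, map_mul,
        map_mul]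
      fin_cases i <;>
      simp <;> ring
    · simp

/-- the linear isomorphism given by an invertible two by two matrix -/
noncomputable def linEq (a b c d : ℂ) (h : a * d - b * c ≠ 0) : (Fin 2 → ℂ) ≃ₗ[ℂ] ℂ × ℂ where
  toFun x := (a * x 0 + b * x 1, c * x 0 + d * x 1)
  map_add' x y := by
    ext <;> simp <;> ring
  map_smul' r x := by
    ext <;> simp <;> ring
  invFun y := ![(d * y.1 - b * y.2) / (a * d - b * c), (a * y.2 - c * y.1) / (a * d - b * c)]
  left_inv x := by
    funext i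
    fin_cases i
    · simp only [Fin.zero_eta, Matrix.cons_val_zero]
      rw [div_eq_iff h]
      ring
    · simp only [Fin.mk_one, Matrix.cons_val_one, Matrix.cons_val_fin_one]
      rw [div_eq_iff h]
      ring
  right_inv y := by
    ext
    · simp only [Matrix.cons_val_zero, Matrix.cons_val_one, Matrix.cons_val_fin_one]
      rw [mul_div_assoc', mul_div_assoc', ← add_div, div_eq_iff h]
      ring
    · simp only [Matrix.cons_val_zero, Matrix.cons_val_one, Matrix.cons_val_fin_one]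
      rw [mul_div_assoc', mul_div_assoc', ← add_div, div_eq_iff h]
      ring

theorem local_inverse {p q b : RR} {m : Fin 2 → ℂ} (hp : eval m p = 0) (hq : eval m q = 0)
    (hJ : eval m (pderiv 0 p * pderiv 1 q - pderiv 1 p * pderiv 0 q) ≠ 0)
    (hb : eval m b ≠ 0) :
    ∃ (δ : ℝ) (g : ℂ × ℂ → Fin 2 → ℂ) (M c₀ : ℝ), 0 < δ ∧ 0 < c₀ ∧
      DifferentiableOn ℂ g (Metric.ball 0 δ) ∧
      ∀ y ∈ Metric.ball (0 : ℂ × ℂ) δ, eval (g y) p = y.1 ∧ eval (g y) q = y.2 ∧
        (∀ i, ‖g y i‖ ≤ M) ∧ c₀ ≤ ‖eval (g y) b‖ := by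
  set P : (Fin 2 → ℂ) → ℂ × ℂ := fun x => (eval x p, eval x q) with hP
  have hPm : P m = 0 := by rw [hP]; simp only [hp, hq]; rfl
  have hdet : eval m (pderiv 0 p) * eval m (pderiv 1 q) -
      eval m (pderiv 1 p) * eval m (pderiv 0 q) ≠ 0 := by
    rwa [map_sub, map_mul, map_mul] at hJ
  set L : (Fin 2 → ℂ) ≃L[ℂ] ℂ × ℂ := (linEq (eval m (pderiv 0 p)) (eval m (pderiv 1 p))
    (eval m (pderiv 0 q)) (eval m (pderiv 1 q)) hdet).toContinuousLinearEquiv with hL
  have hder : HasFDerivAt P (L : (Fin 2 → ℂ) →L[ℂ] ℂ × ℂ) m := by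
    have h1 := (hasFDerivAt_eval p m).prodMk (hasFDerivAt_eval q m)
    refine h1.congr_fderiv ?_
    ext v <;> simp [hL, linEq]
  have hcd : ContDiffAt ℂ 1 P m := by
    have h1 : ContDiffAt ℂ 1 (fun x : Fin 2 → ℂ => eval x p) m :=
      (AnalyticOnNhd.eval_mvPolynomial p m (Set.mem_univ _)).contDiffAt
    have h2 : ContDiffAt ℂ 1 (fun x : Fin 2 → ℂ => eval x q) m :=
      (AnalyticOnNhd.eval_mvPolynomial q m (Set.mem_univ _)).contDiffAt
    exact h1.prodMk h2
  set g := hcd.localInverse hder one_ne_zero with hg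
  have hg0 : g 0 = m := by
    have := hcd.localInverse_apply_image hder one_ne_zero
    rwa [hPm] at this
  have hgcd : ContDiffAt ℂ 1 g 0 := by
    have := hcd.to_localInverse hder one_ne_zero
    rwa [hPm] at this
  have hright : ∀ᶠ y in nhds (0 : ℂ × ℂ), P (g y) = y := by
    have := (hcd.hasStrictFDerivAt' hder one_ne_zero).eventually_right_inverse
    rwa [hPm] at this
  have hdiff : ∀ᶠ y in nhds (0 : ℂ × ℂ), DifferentiableAt ℂ g y := by
    have h1 := hgcd.eventually (by decide)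
    exact h1.mono fun y hy => hy.differentiableAt one_ne_zero
  have hgc : ContinuousAt g 0 := hgcd.continuousAt
  have hbc : ContinuousAt (fun y => eval (g y) b) 0 := by
    have h1 : ContinuousAt (fun x : Fin 2 → ℂ => eval x b) (g 0) :=
      (AnalyticOnNhd.eval_mvPolynomial b (g 0) (Set.mem_univ _)).continuousAt
    exact ContinuousAt.comp (f := g) h1 hgc
  have hbn : 0 < ‖eval m b‖ := norm_pos_iff.2 hb
  have hbe : ∀ᶠ y in nhds (0 : ℂ × ℂ), ‖eval m b‖ / 2 < ‖eval (g y) b‖ := by
    have h1 : Filter.Tendsto (fun y => ‖eval (g y) b‖) (nhds 0) (nhds ‖eval m b‖) := by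
      have := hbc.norm
      rw [ContinuousAt, hg0] at this
      exact this
    exact h1.eventually_const_lt (by linarith)
  have hgn : ∀ᶠ y in nhds (0 : ℂ × ℂ), ‖g y‖ < ‖m‖ + 1 := by
    have h1 : Filter.Tendsto (fun y => ‖g y‖) (nhds 0) (nhds ‖m‖) := by
      have := hgc.norm
      rw [ContinuousAt, hg0] at this
      exact this
    exact h1.eventually_lt_const (by linarith)
  obtain ⟨δ, hδ, hball⟩ := Metric.eventually_nhds_iff_ball.1
    (hright.and (hdiff.and (hbe.and hgn)))
  refine ⟨δ, g, ‖m‖ + 1, ‖eval m b‖ / 2, hδ, by linarith, fun y hy => ?_, fun y hy => ?_⟩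
  · exact ((hball y hy).2.1).differentiableWithinAt
  · obtain ⟨h1, -, h3, h4⟩ := hball y hy
    refine ⟨congrArg Prod.fst h1, congrArg Prod.snd h1, fun i => ?_, h3.le⟩
    exact (norm_le_pi_norm (g y) i).trans h4.le

end Pool.Agent.H13.TD
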