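import Mathlib
import Pool.Agent.H13.TD.Inv

/-!
# Sequences of orbits parametrised by a small circle
-/

set_option autoImplicit false

open MvPolynomial Metric

namespace Pool.Agent.H13.TD

open Pool.Agent.H41.TS

/-- sequences of functions on the circle of radius `ε` -/
abbrev CA (ε : ℝ) : Type := ℕ → sphere (0 : ℂ) ε → ℂ

/-- sequences of boundary values of holomorphic functions -/
def UC (ε : ℝ) : Subalgebra ℂ (CA ε) where
  carrier := {f | ∀ n, ∃ F : ℂ → ℂ, DiffContOnCl ℂ F (ball 0 ε) ∧ ∀ z, f n z = F z}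
  mul_mem' := by
    intro f g hf hg n
    obtain ⟨F, hF, hf⟩ := hf n
    obtain ⟨G, hG, hg⟩ := hg n
    exact ⟨F * G, hF.smul hG, fun z => by rw [Pi.mul_apply, Pi.mul_apply, hf, hg]; rfl⟩
  add_mem' := by
    intro f g hf hg n
    obtain ⟨F, hF, hf⟩ := hf n
    obtain ⟨G, hG, hg⟩ := hg n
    exact ⟨F + G, hF.add hG, fun z => by rw [Pi.add_apply, Pi.add_apply, hf, hg]; rfl⟩
  algebraMap_mem' := fun r n => ⟨fun _ => r, diffContOnCl_const, fun z => rfl⟩

/-- uniformly bounded sequences -/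
def VC (ε : ℝ) : Subalgebra ℂ (CA ε) where
  carrier := {f | ∃ c : ℝ, ∀ n z, ‖f n z‖ ≤ c}
  mul_mem' := by
    rintro f g ⟨c, hc⟩ ⟨d, hd⟩
    refine ⟨c * d, fun n z => ?_⟩
    rw [Pi.mul_apply, Pi.mul_apply, norm_mul]
    exact mul_le_mul (hc n z) (hd n z) (norm_nonneg _) ((norm_nonneg _).trans (hc n z))
  add_mem' := by
    rintro f g ⟨c, hc⟩ ⟨d, hd⟩
    exact ⟨c + d, fun n z => (norm_add_le _ _).trans (add_le_add (hc n z) (hd n z))⟩
  algebraMap_mem' := fun r => ⟨‖r‖, fun n z => le_of_eq rfl⟩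

theorem mem_UC {ε : ℝ} {f : CA ε} : f ∈ UC ε ↔
    ∀ n, ∃ F : ℂ → ℂ, DiffContOnCl ℂ F (ball 0 ε) ∧ ∀ z, f n z = F z := Iff.rfl

theorem mem_VC {ε : ℝ} {f : CA ε} : f ∈ VC ε ↔ ∃ c : ℝ, ∀ n z, ‖f n z‖ ≤ c := Iff.rfl

/-- a sequence of constants -/
def cst (ε : ℝ) (h : ℕ → ℂ) : CA ε := fun n _ => h n

theorem cst_mem_UC (ε : ℝ) (h : ℕ → ℂ) : cst ε h ∈ UC ε :=
  fun n => ⟨fun _ => h n, diffContOnCl_const, fun _ => rfl⟩

theorem cst_mem_VC (ε : ℝ) {h : ℕ → ℂ} (hh : ∃ c : ℝ, ∀ n, ‖h n‖ ≤ c) : cst ε h ∈ VC ε := by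
  obtain ⟨c, hc⟩ := hh
  exact ⟨c, fun n _ => hc n⟩

/-- the coordinate on the circle -/
def kap (ε : ℝ) : CA ε := fun _ z => (z : ℂ)

/-- its inverse -/
noncomputable def kapi (ε : ℝ) : CA ε := fun _ z => (z : ℂ)⁻¹

theorem kap_mul {ε : ℝ} (hε : 0 < ε) : kap ε * kapi ε = 1 := by
  funext n z
  rw [Pi.mul_apply, Pi.mul_apply, kap, kapi]
  have hz : ‖(z : ℂ)‖ = ε := by
    have := z.2
    rwa [mem_sphere, dist_zero_right] at this
  have hz0 : (z : ℂ) ≠ 0 := norm_pos_iff.1 (by rw [hz]; exact hε)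
  exact mul_inv_cancel₀ hz0

theorem kapi_mem_VC (ε : ℝ) : kapi ε ∈ VC ε := by
  refine ⟨ε⁻¹, fun n z => ?_⟩
  have hz : ‖(z : ℂ)‖ = ε := by
    have := z.2
    rwa [mem_sphere, dist_zero_right] at this
  rw [kapi, norm_inv, hz]

theorem circ_bound {ε : ℝ} (hε : 0 < ε) (h : ℕ → ℂ) {u v : CA ε} (hu : u ∈ UC ε) (hv : v ∈ VC ε)
    (huv : kapi ε * cst ε h = u + v) : ∃ c : ℝ, ∀ n, ‖h n‖ ≤ c := by
  obtain ⟨c, hc⟩ := hv
  refine ⟨ε * c, fun n => ?_⟩
  obtain ⟨F, hF, hFu⟩ := hu n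
  have hint : ∮ z in C(0, ε), F z = 0 := hF.circleIntegral_eq_zero hε.le
  have hFint : CircleIntegrable F 0 ε :=
    (hF.continuousOn_ball.mono sphere_subset_closedBall).circleIntegrable hε.le
  have hinv : CircleIntegrable (fun z : ℂ => (z - 0)⁻¹) 0 ε := by
    refine ContinuousOn.circleIntegrable hε.le ?_
    intro z hz
    have hz' : ‖z‖ = ε := by rwa [mem_sphere, dist_zero_right] at hz
    have hz0 : z ≠ 0 := norm_pos_iff.1 (by rw [hz']; exact hε)
    simp only [sub_zero]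
    exact (continuousAt_inv₀ hz0).continuousWithinAt
  have hmain : ∮ z in C(0, ε), (h n • (z - 0)⁻¹ - F z) = h n • (2 * Real.pi * Complex.I) := by
    rw [circleIntegral.integral_sub (hinv.const_fun_smul) hFint, hint, sub_zero,
      circleIntegral.integral_smul, circleIntegral.integral_sub_center_inv 0 hε.ne']
  have hb := circleIntegral.norm_integral_le_of_norm_le_const (f := fun z => h n • (z - 0)⁻¹ - F z)
    (c := 0) (C := c) hε.le (by
      intro z hz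
      have h1 := congrFun (congrFun huv n) ⟨z, hz⟩
      rw [Pi.mul_apply, Pi.mul_apply, Pi.add_apply, Pi.add_apply, hFu] at h1
      have h2 := hc n ⟨z, hz⟩
      have h3 : h n • (z - 0)⁻¹ - F z = v n ⟨z, hz⟩ := by
        rw [smul_eq_mul, sub_zero]
        simp only [kapi, cst] at h1
        linear_combination h1
      rw [h3]
      exact h2)
  rw [hmain, norm_smul, norm_mul, norm_mul, Complex.norm_I, mul_one, Complex.norm_real,
    Real.norm_of_nonneg Real.pi_pos.le, Complex.norm_ofNat] at hb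
  have hpi := Real.pi_pos
  have h4 : ‖h n‖ * (2 * Real.pi) ≤ (ε * c) * (2 * Real.pi) := by linarith
  exact le_of_mul_le_mul_right h4 (by positivity)

end Pool.Agent.H13.TD
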