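import Mathlib
import Pool.Agent.H41.TS.Gen

/-!
# Coprime pairs in `ℂ[a,b]`
-/

set_option autoImplicit false

open MvPolynomial

namespace Pool.Agent.H13.TD

open Pool.Agent.H41.TS

theorem dim_RR : ringKrullDim RR = 2 := by
  rw [MvPolynomial.ringKrullDim_of_isNoetherianRing, ringKrullDim_eq_zero_of_field]
  simp

theorem height_le_two (M : Ideal RR) [M.IsPrime] : M.height ≤ 2 := by
  have h := Ideal.height_le_ringKrullDim_of_isPrime (I := M)
  rw [dim_RR] at h
  have h2 : ((M.height : ℕ∞) : WithBot ℕ∞) ≤ ((2 : ℕ∞) : WithBot ℕ∞) := h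
  exact WithBot.coe_le_coe.1 h2

theorem maximal_of_coprime {f g : RR} (h : IsRelPrime f g) (hf : f ≠ 0) (Q : Ideal RR)
    [hQ : Q.IsPrime] (hfQ : f ∈ Q) (hgQ : g ∈ Q) : Q.IsMaximal := by
  have hne : Q ≠ ⊥ := by
    rintro rfl
    exact hf (Ideal.mem_bot.1 hfQ)
  obtain ⟨π, hπQ, hπ⟩ := hQ.exists_mem_prime_of_ne_bot hne
  have hP : (Ideal.span {π} : Ideal RR).IsPrime := (Ideal.span_singleton_prime hπ.ne_zero).2 hπ
  have hle : Ideal.span {π} ≤ Q := by
    rw [Ideal.span_singleton_le_iff_mem]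
    exact hπQ
  have hlt : Ideal.span {π} < Q := by
    refine lt_of_le_of_ne hle ?_
    intro heq
    rw [← heq, Ideal.mem_span_singleton] at hfQ hgQ
    exact hπ.not_isUnit (h hfQ hgQ)
  have hlt0 : (⊥ : Ideal RR) < Ideal.span {π} := by
    rw [bot_lt_iff_ne_bot, Ne, Ideal.span_singleton_eq_bot]
    exact hπ.ne_zero
  obtain ⟨M, hM, hQM⟩ := Ideal.exists_le_maximal Q hQ.ne_top
  rcases hQM.lt_or_eq with hlt2 | heq
  · exfalso
    have hMp := hM.isPrime
    have h1 := Ideal.height_add_one_le_of_lt_of_isPrime hlt0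
    have h2 := Ideal.height_add_one_le_of_lt_of_isPrime hlt
    have h3 := Ideal.height_add_one_le_of_lt_of_isPrime hlt2
    have h4 := height_le_two M
    rw [Ideal.height_bot] at h1
    have h5 : (3 : ℕ∞) ≤ 2 := by
      calc (3 : ℕ∞) = 0 + 1 + 1 + 1 := by norm_num
        _ ≤ (Ideal.span {π} : Ideal RR).height + 1 + 1 := by gcongr
        _ ≤ Q.height + 1 := by gcongr
        _ ≤ M.height := h3
        _ ≤ 2 := h4
    exact absurd h5 (by decide)
  · rw [heq]
    exact hM

theorem artinian_of_coprime {f g : RR} (h : IsRelPrime f g) (hf : f ≠ 0) :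
    IsArtinianRing (RR ⧸ Ideal.span {f, g}) := by
  rw [isArtinianRing_iff_isNoetherianRing_krullDimLE_zero]
  refine ⟨inferInstance, Ring.krullDimLE_zero_iff.2 fun P hP => ?_⟩
  set φ := Ideal.Quotient.mk (Ideal.span {f, g}) with hφ
  have hsurj : Function.Surjective φ := Ideal.Quotient.mk_surjective
  have hQp : (P.comap φ).IsPrime := Ideal.comap_isPrime φ P
  have hmem : ∀ x ∈ Ideal.span {f, g}, x ∈ P.comap φ := by
    intro x hx
    rw [Ideal.mem_comap, hφ, Ideal.Quotient.eq_zero_iff_mem.2 hx]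
    exact zero_mem _
  have hmax := maximal_of_coprime h hf (P.comap φ)
    (hmem f (Ideal.subset_span (Set.mem_insert _ _)))
    (hmem g (Ideal.subset_span (Set.mem_insert_of_mem _ (Set.mem_singleton _))))
  rcases Ideal.map_eq_top_or_isMaximal_of_surjective φ hsurj hmax with h1 | h1
  · rw [Ideal.map_comap_of_surjective φ hsurj] at h1
    exact absurd h1 hP.ne_top
  · rwa [Ideal.map_comap_of_surjective φ hsurj] at h1

/-- units modulo a coprime pair are squares -/
theorem exists_sq_mod {f g : RR} (h : IsRelPrime f g) (u : RR)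
    (hu : Ideal.span {f, g, u} = ⊤) : ∃ v : RR, u - v ^ 2 ∈ Ideal.span {f, g} := by
  by_cases hf : f = 0
  · subst hf
    have hg : IsUnit g := h (dvd_zero g) dvd_rfl
    refine ⟨0, ?_⟩
    have : Ideal.span {(0 : RR), g} = ⊤ :=
      Ideal.eq_top_of_isUnit_mem _
        (Ideal.subset_span (Set.mem_insert_of_mem _ (Set.mem_singleton _))) hg
    rw [this]
    trivial
  have := artinian_of_coprime h hf
  set I := Ideal.span {f, g} with hI
  set φ := Ideal.Quotient.mk I with hφ
  have hsurj : Function.Surjective φ := Ideal.Quotient.mk_surjective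
  have hs : ∀ M : MaximalSpectrum (RR ⧸ I), ∃ s : RR ⧸ I, s ^ 2 - φ u ∈ M.asIdeal := by
    intro M
    have hM := M.isMaximal
    have hmax : (M.asIdeal.comap φ).IsMaximal := Ideal.comap_isMaximal_of_surjective φ hsurj
    obtain ⟨m, hm⟩ := isMaximal_iff_eq_vanishingIdeal_singleton.1 hmax
    obtain ⟨c, hc⟩ := IsAlgClosed.exists_pow_nat_eq (eval m u) (n := 2) (by norm_num)
    refine ⟨φ (C c), ?_⟩
    have h1 : C c ^ 2 - u ∈ M.asIdeal.comap φ := by
      rw [hm, mem_vanishingIdeal_singleton_iff]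
      change eval m (C c ^ 2 - u) = 0
      rw [map_sub, map_pow, eval_C, hc, sub_self]
    rw [Ideal.mem_comap, map_sub, map_pow] at h1
    exact h1
  choose s hs using hs
  set e := IsArtinianRing.quotNilradicalEquivPi (RR ⧸ I) with he
  obtain ⟨v₀, hv₀⟩ := Ideal.Quotient.mk_surjective (e.symm fun M => Ideal.Quotient.mk M.asIdeal (s M))
  have hcomp : ∀ (x : RR ⧸ I) (M : MaximalSpectrum (RR ⧸ I)),
      e (Ideal.Quotient.mk (nilradical (RR ⧸ I)) x) M = Ideal.Quotient.mk M.asIdeal x := by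
    intro x M
    exact congrFun (e.commutes x) M
  have hnil : IsNilpotent (v₀ ^ 2 - φ u) := by
    rw [← mem_nilradical, ← Ideal.Quotient.eq_zero_iff_mem]
    apply e.injective
    rw [map_zero]
    funext M
    rw [hcomp, Pi.zero_apply, map_sub, map_pow]
    have h2 : Ideal.Quotient.mk M.asIdeal v₀ = Ideal.Quotient.mk M.asIdeal (s M) := by
      rw [← hcomp, hv₀, AlgEquiv.apply_symm_apply]
    rw [h2, ← map_pow, ← map_sub]
    exact Ideal.Quotient.eq_zero_iff_mem.2 (hs M)
  have huu : IsUnit (φ u) := by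
    have h2 : (1 : RR) ∈ Ideal.span {f, g, u} := by rw [hu]; trivial
    obtain ⟨α, β, γ, h3⟩ := Submodule.mem_span_triple.1 h2
    have h4 := congrArg φ h3
    have h5 : φ f = 0 := Ideal.Quotient.eq_zero_iff_mem.2
      (Ideal.subset_span (Set.mem_insert _ _))
    have h6 : φ g = 0 := Ideal.Quotient.eq_zero_iff_mem.2
      (Ideal.subset_span (Set.mem_insert_of_mem _ (Set.mem_singleton _)))
    simp only [smul_eq_mul, map_add, map_mul, h5, h6, mul_zero, zero_add, map_one] at h4
    exact IsUnit.of_mul_eq_one (φ γ) (by rw [mul_comm]; exact h4)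
  have hv₀u : IsUnit v₀ := by
    have h2 : IsUnit (v₀ ^ 2) := by
      have h3 : v₀ ^ 2 = φ u + (v₀ ^ 2 - φ u) := by ring
      rw [h3]
      exact hnil.isUnit_add_left_of_commute huu (Commute.all _ _)
    exact (isUnit_pow_iff two_ne_zero).1 h2
  have h2u : IsUnit (2 : RR ⧸ I) := by
    have h3 : IsUnit (2 : ℂ) := two_ne_zero.isUnit
    have h4 := h3.map (algebraMap ℂ (RR ⧸ I))
    rwa [map_ofNat] at h4
  set P : Polynomial (RR ⧸ I) := Polynomial.X ^ 2 - Polynomial.C (φ u) with hP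
  have hPa : ∀ x : RR ⧸ I, Polynomial.aeval x P = x ^ 2 - φ u := by
    intro x
    rw [Polynomial.coe_aeval_eq_eval, hP]
    simp
  have hP2 : Polynomial.aeval v₀ (Polynomial.derivative P) = 2 * v₀ := by
    rw [Polynomial.coe_aeval_eq_eval, hP]
    simp only [Polynomial.derivative_sub, Polynomial.derivative_C, sub_zero,
      Polynomial.derivative_X_pow, Polynomial.eval_mul, Polynomial.eval_pow, Polynomial.eval_X,
      Polynomial.eval_C, Nat.cast_ofNat, Nat.add_one_sub_one, pow_one]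
  obtain ⟨v₁, ⟨-, hv₁⟩, -⟩ := Polynomial.existsUnique_nilpotent_sub_and_aeval_eq_zero (P := P)
    (x := v₀) (by rw [hPa]; exact hnil) (by rw [hP2]; exact h2u.mul hv₀u)
  obtain ⟨v, rfl⟩ := hsurj v₁
  refine ⟨v, ?_⟩
  have h7 : φ v ^ 2 - φ u = 0 := by
    rw [← hPa, hv₁]
  rw [← Ideal.Quotient.eq_zero_iff_mem, map_sub, map_pow]
  change φ u - φ v ^ 2 = 0
  linear_combination -h7

end Pool.Agent.H13.TD
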