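import Mathlib
import Pool.Agent.H41.TS.Fib

/-!
# The fibre over a common zero
-/

set_option autoImplicit false

open MvPolynomial

namespace Pool.Agent.H13.TD

open Pool.Agent.H41.TS

/-- the fibre of `R[x,y]` at `m` -/
noncomputable def fm (m : Fin 2 → ℂ) : SS →+* MvPolynomial (Fin 2) ℂ :=
  MvPolynomial.map (eval m : RR →+* ℂ)

theorem fm_C (m : Fin 2 → ℂ) (r : RR) : fm m (C r) = C (eval m r) := by
  rw [fm, map_C]

theorem fm_X (m : Fin 2 → ℂ) (i : Fin 2) : fm m (X i) = X i := by
  rw [fm, map_X]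

theorem fm_D0 {p q : RR} {m : Fin 2 → ℂ} (hp : eval m p = 0) (hq : eval m q = 0) (f : SS) :
    fm m (D0 p q f) = 0 := by
  have := comm_of_gens (fm m) (0 : Derivation ℂ (MvPolynomial (Fin 2) ℂ)
      (MvPolynomial (Fin 2) ℂ)) (D0 p q) (fun r => rfl) (by
        intro i
        fin_cases i
        · simp only [Fin.zero_eta]
          rw [D0_X0, fm_C, hp, C_0]
          rfl
        · simp only [Fin.mk_one]
          rw [D0_X1, fm_C, hq, C_0]
          rfl) f
  rw [this]
  rfl

theorem fm_nf {p q : RR} {m : Fin 2 → ℂ} (hp : eval m p = 0) (hq : eval m q = 0)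
    (ρ : MvPolynomial (Fin 3) ℂ) : fm m (nf p q ρ) = rho0 ρ := by
  have h1 : ((fm m).comp (nf p q).toRingHom) =
      (aeval (R := ℂ) ![(0 : MvPolynomial (Fin 2) ℂ), X 0, X 1]).toRingHom := by
    refine MvPolynomial.ringHom_ext ?_ ?_
    · intro c
      have h2 : (nf p q).toRingHom (C c) = C (C c) := (nf p q).commutes c
      rw [RingHom.comp_apply, h2, fm_C, eval_C]
      exact ((aeval (R := ℂ) ![(0 : MvPolynomial (Fin 2) ℂ), X 0, X 1]).commutes c).symm
    · intro i
      rw [RingHom.comp_apply]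
      have h4 : ∀ g, (nf p q).toRingHom g = nf p q g := fun g => rfl
      have h5 : ∀ g, (aeval (R := ℂ) ![(0 : MvPolynomial (Fin 2) ℂ), X 0, X 1]).toRingHom g =
        aeval (R := ℂ) ![(0 : MvPolynomial (Fin 2) ℂ), X 0, X 1] g := fun g => rfl
      rw [h4, h5, aeval_X]
      fin_cases i
      · simp only [Fin.zero_eta]
        rw [nf_X0, Lel, map_sub, map_mul, map_mul, fm_C, fm_C, hp, hq, C_0]
        simp
      · simp only [Fin.mk_one]
        rw [nf_X1, fm_X]
        rfl
      · simp only [Fin.reduceFinMk]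
        rw [nf_X2, fm_X]
        rfl
  exact RingHom.congr_fun h1 ρ

/-- if `D` has a slice then `D z` is a non-zero constant on the fibre over a common zero -/
theorem fibre_unit {p q : RR} {m : Fin 2 → ℂ} (hp : eval m p = 0) (hq : eval m q = 0)
    {D : Derivation RR BB BB} (hx : D (X 0) = C p) (hy : D (X 1) = C q) {r : SS}
    (hz : D (X 2) = inc r) {s : BB} (hs : D s = 1) : IsUnit (fm m r) := by
  set φC : RR →+* Polynomial (MvPolynomial (Fin 2) ℂ) :=
    (Polynomial.C (R := MvPolynomial (Fin 2) ℂ)).comp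
      ((C : ℂ →+* MvPolynomial (Fin 2) ℂ).comp (eval m : RR →+* ℂ)) with hφC
  have hφCr : ∀ r, φC r = Polynomial.C (C (eval m r)) := fun r => rfl
  set E : BB →+* Polynomial (MvPolynomial (Fin 2) ℂ) :=
    eval₂Hom φC ![Polynomial.C (X 0), Polynomial.C (X 1), Polynomial.X] with hE
  have hEC : ∀ r, E (C r) = Polynomial.C (C (eval m r)) := fun r => by rw [hE, eval₂Hom_C, hφCr]
  have hE0 : E (X 0) = Polynomial.C (X 0) := by rw [hE, eval₂Hom_X']; rfl
  have hE1 : E (X 1) = Polynomial.C (X 1) := by rw [hE, eval₂Hom_X']; rfl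
  have hE2 : E (X 2) = Polynomial.X := by rw [hE, eval₂Hom_X']; rfl
  have hEinc : ∀ f, E (inc f) = Polynomial.C (fm m f) := by
    intro f
    have h1 : E.comp (inc : SS →ₐ[RR] BB).toRingHom =
        (Polynomial.C (R := MvPolynomial (Fin 2) ℂ)).comp (fm m) := by
      refine MvPolynomial.ringHom_ext ?_ ?_
      · intro r
        have h2 : (inc : SS →ₐ[RR] BB).toRingHom (C r) = C r := inc_C r
        rw [RingHom.comp_apply, h2, hEC, RingHom.comp_apply, fm_C]
      · intro i
        rw [RingHom.comp_apply, RingHom.comp_apply, fm_X]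
        have h4 : ∀ g, (inc : SS →ₐ[RR] BB).toRingHom g = inc g := fun g => rfl
        rw [h4]
        fin_cases i
        · simp only [Fin.zero_eta]
          rw [inc_X0, hE0]
        · simp only [Fin.mk_one]
          rw [inc_X1, hE1]
    exact RingHom.congr_fun h1 f
  have hcommE : ∀ f, E (D f) = Polynomial.C (fm m r) * Polynomial.derivative (E f) := by
    intro f
    refine comm_of_gens E (dl (fm m r)) D ?_ ?_ f
    · intro r'
      rw [hEC, dl_apply, Polynomial.derivative_C, mul_zero]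
    · intro i
      rw [dl_apply]
      fin_cases i
      · simp only [Fin.zero_eta]
        rw [hx, hEC, hE0, hp, Polynomial.derivative_C, C_0, map_zero, mul_zero]
      · simp only [Fin.mk_one]
        rw [hy, hEC, hE1, hq, Polynomial.derivative_C, C_0, map_zero, mul_zero]
      · simp only [Fin.reduceFinMk]
        rw [hz, hEinc, hE2, Polynomial.derivative_X, mul_one]
  have h1 : Polynomial.C (fm m r) * Polynomial.derivative (E s) = 1 := by
    rw [← hcommE, hs, map_one]
  exact Polynomial.isUnit_C.1 (IsUnit.of_mul_eq_one _ h1)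

theorem coeff_of_unit {ρ : MvPolynomial (Fin 3) ℂ} (h2 : IsUnit (rho0 ρ)) :
    ρ.coeff 0 ≠ 0 ∧ ∀ d ∈ ρ.support, d 0 = 0 → d = 0 := by
  rw [isUnit_iff_eq_C_of_isReduced] at h2
  obtain ⟨r, hr, hρ⟩ := h2
  constructor
  · have h3 := rho0_coeff ρ 0
    rw [Finsupp.cons_zero_zero, hρ, coeff_zero_C] at h3
    rw [← h3]
    exact hr.ne_zero
  · intro d hd hd0
    have h3 := rho0_coeff ρ d.tail
    rw [hρ] at h3
    have h4 : d.tail.cons 0 = d := by
      have := Finsupp.cons_tail d
      rwa [hd0] at this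
    rw [h4] at h3
    by_contra hne
    have h5 : d.tail ≠ 0 := by
      intro h6
      apply hne
      rw [← h4, h6, Finsupp.cons_zero_zero]
    rw [coeff_C, if_neg (Ne.symm h5)] at h3
    exact (mem_support_iff.1 hd) h3.symm

theorem fibre_coeff {p q : RR} {m : Fin 2 → ℂ} (hp : eval m p = 0) (hq : eval m q = 0)
    {D : Derivation RR BB BB} (hx : D (X 0) = C p) (hy : D (X 1) = C q) {r : SS}
    (hz : D (X 2) = inc r) {b : RR} (hb : eval m b ≠ 0) {ρ : MvPolynomial (Fin 3) ℂ} {w : SS}
    (hr : C b * r = C b * nf p q ρ + D0 p q w) {s : BB} (hs : D s = 1) :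
    ρ.coeff 0 ≠ 0 ∧ ∀ d ∈ ρ.support, d 0 = 0 → d = 0 := by
  apply coeff_of_unit
  have h1 := congrArg (fm m) hr
  rw [map_add, map_mul, map_mul, fm_D0 hp hq, add_zero, fm_C, fm_nf hp hq] at h1
  have hC : (C (eval m b) : MvPolynomial (Fin 2) ℂ) ≠ 0 := by
    rw [Ne, C_eq_zero]
    exact hb
  rw [← mul_left_cancel₀ hC h1]
  exact fibre_unit hp hq hx hy hz hs

end Pool.Agent.H13.TD
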