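import Mathlib
import Pool.Agent.H41.TS.Norm

/-!
# Transversal common zeros: local condition and local normal form
-/

set_option autoImplicit false

open MvPolynomial
open scoped Pointwise

namespace Pool.Agent.H13.TD

open Pool.Agent.H41.TS

/-- the maximal ideal of the point `m` -/
noncomputable def mx (m : Fin 2 → ℂ) : Ideal RR := RingHom.ker (eval m : RR →+* ℂ)

theorem mem_mx {m : Fin 2 → ℂ} {f : RR} : f ∈ mx m ↔ eval m f = 0 := RingHom.mem_ker

theorem t_mem (m : Fin 2 → ℂ) (i : Fin 2) : (X i - C (m i) : RR) ∈ mx m := by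
  rw [mem_mx, map_sub, eval_X, eval_C, sub_self]

/-- first order Taylor expansion -/
theorem taylor (m : Fin 2 → ℂ) (f : RR) :
    f - C (eval m f) - C (eval m (pderiv 0 f)) * (X 0 - C (m 0)) -
      C (eval m (pderiv 1 f)) * (X 1 - C (m 1)) ∈ mx m * mx m := by
  induction f using MvPolynomial.induction_on with
  | C r =>
    rw [pderiv_C, pderiv_C, map_zero, eval_C, C_0, zero_mul, zero_mul, sub_zero, sub_zero, sub_self]
    exact zero_mem _
  | add f g hf hg =>
    have h := add_mem hf hg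
    have e : ∀ F G : RR, F = G → F ∈ mx m * mx m → G ∈ mx m * mx m := fun F G h1 h2 => h1 ▸ h2
    refine e _ _ ?_ h
    simp only [map_add]
    ring
  | mul_X f i hf =>
    set l : RR := C (eval m (pderiv 0 f)) * (X 0 - C (m 0)) +
      C (eval m (pderiv 1 f)) * (X 1 - C (m 1)) with hl
    have hlm : l ∈ mx m :=
      add_mem (Ideal.mul_mem_left _ _ (t_mem m 0)) (Ideal.mul_mem_left _ _ (t_mem m 1))
    have h1 : l * (X i - C (m i)) ∈ mx m * mx m := Ideal.mul_mem_mul hlm (t_mem m i)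
    have h2 := Ideal.mul_mem_right (X i) _ hf
    have h := add_mem h2 h1
    have e : ∀ F G : RR, F = G → F ∈ mx m * mx m → G ∈ mx m * mx m := fun F G h1 h2 => h1 ▸ h2
    refine e _ _ ?_ h
    rw [hl]
    have h01 : pderiv (0 : Fin 2) (X 1 : RR) = 0 := pderiv_X_of_ne (by decide)
    have h10 : pderiv (1 : Fin 2) (X 0 : RR) = 0 := pderiv_X_of_ne (by decide)
    fin_cases i
    · simp only [Fin.zero_eta, pderiv_mul, pderiv_X_self, h10, map_add, map_mul, eval_X,
        mul_one, mul_zero, add_zero]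
      ring
    · simp only [Fin.mk_one, pderiv_mul, pderiv_X_self, h01, map_add, map_mul, eval_X,
        mul_one, mul_zero, add_zero]
      ring

/-- near a transversal common zero the ideal `(p,q)` is the maximal ideal -/
theorem loc_cond {p q : RR} {m : Fin 2 → ℂ} (hp : eval m p = 0) (hq : eval m q = 0)
    (hJ : eval m (pderiv 0 p * pderiv 1 q - pderiv 1 p * pderiv 0 q) ≠ 0) :
    ∃ b : RR, eval m b ≠ 0 ∧ ∀ f : RR, eval m f = 0 → b * f ∈ Ideal.span {p, q} := by
  have hTp := taylor m p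
  have hTq := taylor m q
  rw [hp, C_0, sub_zero] at hTp
  rw [hq, C_0, sub_zero] at hTq
  set pa := eval m (pderiv 0 p) with hpa
  set pb := eval m (pderiv 1 p) with hpb
  set qa := eval m (pderiv 0 q) with hqa
  set qb := eval m (pderiv 1 q) with hqb
  have hdet : pa * qb - pb * qa ≠ 0 := by rwa [map_sub, map_mul, map_mul] at hJ
  have hdetC : (C (pa * qb - pb * qa)⁻¹ * (C pa * C qb - C pb * C qa) : RR) = 1 := by
    rw [← C_mul, ← C_mul, ← C_sub, ← C_mul, inv_mul_cancel₀ hdet, C_1]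
  have hpI : p ∈ Ideal.span {p, q} ⊔ mx m * mx m :=
    Ideal.mem_sup_left (Ideal.subset_span (Set.mem_insert _ _))
  have hqI : q ∈ Ideal.span {p, q} ⊔ mx m * mx m :=
    Ideal.mem_sup_left (Ideal.subset_span (Set.mem_insert_of_mem _ (Set.mem_singleton _)))
  set I := Ideal.span {p, q} ⊔ mx m * mx m with hI
  have e : ∀ F G : RR, F = G → F ∈ I → G ∈ I := fun F G h1 h2 => h1 ▸ h2
  have hLp : C pa * (X 0 - C (m 0)) + C pb * (X 1 - C (m 1)) ∈ I := by
    refine e _ _ ?_ (sub_mem hpI (Ideal.mem_sup_right hTp))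
    ring
  have hLq : C qa * (X 0 - C (m 0)) + C qb * (X 1 - C (m 1)) ∈ I := by
    refine e _ _ ?_ (sub_mem hqI (Ideal.mem_sup_right hTq))
    ring
  have ht0 : (X 0 - C (m 0) : RR) ∈ I := by
    refine e _ _ ?_ (Ideal.mul_mem_left _ (C (pa * qb - pb * qa)⁻¹)
      (sub_mem (Ideal.mul_mem_left _ (C qb) hLp) (Ideal.mul_mem_left _ (C pb) hLq)))
    linear_combination (X 0 - C (m 0) : RR) * hdetC
  have ht1 : (X 1 - C (m 1) : RR) ∈ I := by
    refine e _ _ ?_ (Ideal.mul_mem_left _ (C (pa * qb - pb * qa)⁻¹)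
      (sub_mem (Ideal.mul_mem_left _ (C pa) hLq) (Ideal.mul_mem_left _ (C qa) hLp)))
    linear_combination (X 1 - C (m 1) : RR) * hdetC
  have hle : mx m ≤ Ideal.span {p, q} ⊔ mx m • mx m := by
    intro f hf
    have hT := taylor m f
    rw [mem_mx.1 hf, C_0, sub_zero] at hT
    have h1 := add_mem (add_mem (Ideal.mem_sup_right (S := Ideal.span {p, q}) hT)
      (Ideal.mul_mem_left _ (C (eval m (pderiv 0 f))) ht0))
      (Ideal.mul_mem_left _ (C (eval m (pderiv 1 f))) ht1)
    refine e _ _ ?_ h1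
    ring
  obtain ⟨b, hb1, hb2⟩ := Submodule.exists_sub_one_mem_and_smul_le_of_fg_of_le_sup
    (IsNoetherian.noetherian (mx m)) le_rfl hle
  refine ⟨b, ?_, fun f hf => ?_⟩
  · have h1 := mem_mx.1 hb1
    rw [map_sub, map_one, sub_eq_zero] at h1
    rw [h1]
    exact one_ne_zero
  · have h1 : b • f ∈ b • mx m := Submodule.smul_mem_pointwise_smul f b _ (mem_mx.2 hf)
    exact hb2 h1

end Pool.Agent.H13.TD
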