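import Mathlib
import Pool.Agent.H13.TD.Loc

/-!
# Local normal form with constant coefficients
-/

set_option autoImplicit false

open MvPolynomial

namespace Pool.Agent.H13.TD

open Pool.Agent.H41.TS

/-- the monomial `L^v x^i y^j` -/
noncomputable def mon (p q : RR) (v i j : ℕ) : SS := Lel p q ^ v * X 0 ^ i * X 1 ^ j

theorem mon_nf (p q : RR) (v i j : ℕ) :
    nf p q (X 0 ^ v * X 1 ^ i * X 2 ^ j) = mon p q v i j := by
  rw [map_mul, map_mul, map_pow, map_pow, map_pow, nf_X0, nf_X1, nf_X2, mon]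

theorem C_D0 (p q c : RR) (f : SS) : C c * D0 p q f = D0 p q (C c * f) := by
  rw [D0_mul, D0_C, mul_zero, add_zero]

theorem smul_C (c : ℂ) (f : SS) : c • f = C (C c) * f := by
  rw [Algebra.smul_def]
  rfl

theorem nf_C (p q : RR) (c : ℂ) : nf p q (C c) = C (C c) := (nf p q).commutes c

theorem inv_mul_C {n : ℕ} (hn : n ≠ 0) : (C (C ((n : ℂ)⁻¹)) * C (C ((n : ℂ))) : SS) = 1 := by
  rw [← C_mul, ← C_mul, inv_mul_cancel₀ (Nat.cast_ne_zero.2 hn), C_1, C_1]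

/-- `p L^v x^i y^j` modulo the image of `D0` -/
theorem low_p (p q : RR) (v i j : ℕ) : ∃ (W : SS), C p * mon p q v i j =
    D0 p q W - C (C ((j : ℂ) / ((i + j + 1 : ℕ) : ℂ))) * mon p q (v + 1) i (j - 1) := by
  have h := key_p p q v i j
  rw [smul_C, smul_C] at h
  have hn : (i + j + 1 : ℕ) ≠ 0 := by omega
  have h2 := inv_mul_C hn
  refine ⟨C (C (((i + j + 1 : ℕ) : ℂ)⁻¹)) * (Lel p q ^ v * (X 0 ^ (i + 1) * X 1 ^ j)), ?_⟩
  rw [← C_D0]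
  have h3 : (C (C ((j : ℂ) / ((i + j + 1 : ℕ) : ℂ))) : SS) =
      C (C (((i + j + 1 : ℕ) : ℂ)⁻¹)) * C (C (j : ℂ)) := by
    rw [← C_mul, ← C_mul, div_eq_inv_mul]
  rw [h3, mon, mon]
  linear_combination C (C (((i + j + 1 : ℕ) : ℂ)⁻¹)) * h -
    C p * (Lel p q ^ v * X 0 ^ i * X 1 ^ j) * h2

theorem low_q (p q : RR) (v i j : ℕ) : ∃ (W : SS), C q * mon p q v i j =
    D0 p q W + C (C ((i : ℂ) / ((i + j + 1 : ℕ) : ℂ))) * mon p q (v + 1) (i - 1) j := by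
  have h := key_q p q v i j
  rw [smul_C, smul_C] at h
  have hn : (i + j + 1 : ℕ) ≠ 0 := by omega
  have h2 := inv_mul_C hn
  refine ⟨C (C (((i + j + 1 : ℕ) : ℂ)⁻¹)) * (Lel p q ^ v * (X 0 ^ i * X 1 ^ (j + 1))), ?_⟩
  rw [← C_D0]
  have h3 : (C (C ((i : ℂ) / ((i + j + 1 : ℕ) : ℂ))) : SS) =
      C (C (((i + j + 1 : ℕ) : ℂ)⁻¹)) * C (C (i : ℂ)) := by
    rw [← C_mul, ← C_mul, div_eq_inv_mul]
  rw [h3, mon, mon]
  linear_combination C (C (((i + j + 1 : ℕ) : ℂ)⁻¹)) * h -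
    C q * (Lel p q ^ v * X 0 ^ i * X 1 ^ j) * h2

/-- `c₁ f = b₁ ρ(L,x,y)` locally at `m`, modulo the image of `D0` -/
def LN (p q : RR) (m : Fin 2 → ℂ) (c₁ b₁ : RR) (f : SS) : Prop :=
  ∃ b : RR, eval m b ≠ 0 ∧ ∃ (ρ : MvPolynomial (Fin 3) ℂ) (w : SS),
    C b * (C c₁ * f - C b₁ * nf p q ρ) = D0 p q w

theorem LN_zero (p q : RR) (m : Fin 2 → ℂ) (b₁ : RR) (f : SS) : LN p q m 0 b₁ f :=
  ⟨1, by rw [map_one]; exact one_ne_zero, 0, 0, by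
    rw [map_zero, map_zero, map_zero, mul_zero, zero_mul, sub_zero, mul_zero]⟩

theorem loc_mono {p q : RR} {m : Fin 2 → ℂ} {b₀ : RR} (hb₀ : eval m b₀ ≠ 0)
    (hI : ∀ f : RR, eval m f = 0 → b₀ * f ∈ Ideal.span {p, q}) (n : ℕ) :
    ∀ (v i j : ℕ), i + j ≤ n → ∀ c₁ b₁ : RR, eval m b₁ ≠ 0 → LN p q m c₁ b₁ (mon p q v i j) := by
  induction n using Nat.strong_induction_on with
  | _ n ih =>
  intro v i j hij c₁ b₁ hb₁
  set lam : ℂ := eval m c₁ / eval m b₁ with hlam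
  have hf : eval m (c₁ - C lam * b₁) = 0 := by
    rw [map_sub, map_mul, eval_C, hlam, div_mul_cancel₀ _ hb₁, sub_self]
  obtain ⟨α, β, hαβ⟩ := Ideal.mem_span_pair.1 (hI _ hf)
  obtain ⟨W₁, hW₁⟩ := low_p p q v i j
  obtain ⟨W₂, hW₂⟩ := low_q p q v i j
  have hb01 : eval m (b₀ * b₁) ≠ 0 := by
    rw [map_mul]
    exact mul_ne_zero hb₀ hb₁
  have h1 : LN p q m (- (C ((j : ℂ) / ((i + j + 1 : ℕ) : ℂ)) * α)) (b₀ * b₁)
      (mon p q (v + 1) i (j - 1)) := by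
    rcases Nat.eq_zero_or_pos j with rfl | hj
    · rw [Nat.cast_zero, zero_div, C_0, zero_mul, neg_zero]
      exact LN_zero p q m _ _
    · exact ih (i + (j - 1)) (by omega) (v + 1) i (j - 1) le_rfl _ _ hb01
  have h2 : LN p q m (C ((i : ℂ) / ((i + j + 1 : ℕ) : ℂ)) * β) (b₀ * b₁)
      (mon p q (v + 1) (i - 1) j) := by
    rcases Nat.eq_zero_or_pos i with rfl | hi
    · rw [Nat.cast_zero, zero_div, C_0, zero_mul]
      exact LN_zero p q m _ _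
    · exact ih (i - 1 + j) (by omega) (v + 1) (i - 1) j le_rfl _ _ hb01
  obtain ⟨b₂, hb₂, ρ₂, w₂, hw₂⟩ := h1
  obtain ⟨b₃, hb₃, ρ₃, w₃, hw₃⟩ := h2
  refine ⟨b₂ * b₃ * b₀, ?_, C lam * (X 0 ^ v * X 1 ^ i * X 2 ^ j) + ρ₂ + ρ₃,
    C (b₂ * b₃) * (C α * W₁ + C β * W₂) + C b₃ * w₂ + C b₂ * w₃, ?_⟩
  · rw [map_mul, map_mul]
    exact mul_ne_zero (mul_ne_zero hb₂ hb₃) hb₀
  · have hnf : nf p q (C lam * (X 0 ^ v * X 1 ^ i * X 2 ^ j) + ρ₂ + ρ₃) =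
        C (C lam) * mon p q v i j + nf p q ρ₂ + nf p q ρ₃ := by
      rw [map_add, map_add, map_mul, nf_C, mon_nf]
    have hD : D0 p q (C (b₂ * b₃) * (C α * W₁ + C β * W₂) + C b₃ * w₂ + C b₂ * w₃) =
        C (b₂ * b₃) * (C α * D0 p q W₁ + C β * D0 p q W₂) + C b₃ * D0 p q w₂ +
          C b₂ * D0 p q w₃ := by
      rw [map_add, map_add, ← C_D0, ← C_D0, ← C_D0, map_add, ← C_D0, ← C_D0]
    rw [hnf, hD, ← hw₂, ← hw₃]
    have h4 : (C (b₀ * (c₁ - C lam * b₁)) : SS) = C (α * p + β * q) := by rw [hαβ]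
    simp only [C_mul, C_add, C_sub, C_neg] at h4 ⊢
    linear_combination (C b₂ * C b₃ * mon p q v i j) * h4 + C b₂ * C b₃ * C α * hW₁ +
      C b₂ * C b₃ * C β * hW₂

theorem loc_nf {p q : RR} {m : Fin 2 → ℂ} {b₀ : RR} (hb₀ : eval m b₀ ≠ 0)
    (hI : ∀ f : RR, eval m f = 0 → b₀ * f ∈ Ideal.span {p, q}) (r : SS) :
    ∃ b : RR, eval m b ≠ 0 ∧ ∃ (ρ : MvPolynomial (Fin 3) ℂ) (w : SS),
      C b * r = C b * nf p q ρ + D0 p q w := by
  induction r using MvPolynomial.induction_on' with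
  | monomial d c =>
    obtain ⟨b, hb, ρ, w, hw⟩ := loc_mono (p := p) (q := q) hb₀ hI (d 0 + d 1) 0 (d 0) (d 1) le_rfl
      c 1 (by rw [map_one]; exact one_ne_zero)
    refine ⟨b, hb, ρ, w, ?_⟩
    have h : monomial d c = C c * mon p q 0 (d 0) (d 1) := by
      rw [mon, pow_zero, one_mul, monomial_eq, Finsupp.prod_fintype _ _ (fun i => pow_zero _),
        Fin.prod_univ_two]
    rw [h, ← hw, C_1]
    ring
  | add f g hf hg =>
    obtain ⟨b, hb, ρ, w, hw⟩ := hf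
    obtain ⟨b', hb', ρ', w', hw'⟩ := hg
    refine ⟨b * b', by rw [map_mul]; exact mul_ne_zero hb hb', ρ + ρ', C b' * w + C b * w', ?_⟩
    rw [map_add, map_add, ← C_D0, ← C_D0, C_mul]
    linear_combination C b' * hw + C b * hw'

end Pool.Agent.H13.TD
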