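import Mathlib
import Pool.Agent.H13.TD.Circ

/-!
# Sequences of orbits near a transversal common zero
-/

set_option autoImplicit false

open MvPolynomial Metric

namespace Pool.Agent.H13.TD

open Pool.Agent.H41.TS

theorem seq_gen {p q : RR} {m : Fin 2 → ℂ} (hp : eval m p = 0) (hq : eval m q = 0)
    (hJ : eval m (pderiv 0 p * pderiv 1 q - pderiv 1 p * pderiv 0 q) ≠ 0)
    {D : Derivation RR BB BB}
    (hx : D (X 0) = MvPolynomial.C p) (hy : D (X 1) = MvPolynomial.C q)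
    {ρ : MvPolynomial (Fin 3) ℂ} {b : RR} (hb : eval m b ≠ 0) {w : SS}
    (hz : C b * D (X 2) = C b * inc (nf p q ρ) + D (inc w)) {s : BB} (hs : D s = 1)
    (ℓ h : ℕ → ℂ) (hh : ∀ n, h n ≠ 0) (hℓ : ∃ c : ℝ, ∀ n, ‖ℓ n‖ ≤ c) (μ : ℂ)
    (hmem : ∀ d ∈ ρ.support, ∃ c : ℝ, ∀ n, ‖ℓ n ^ d 0 * h n ^ (d 1 + d 2)‖ ≤ c)
    (hG : ∀ n, ∑ d ∈ ρ.support, (ρ.coeff d * (μ ^ d 2 / ((d 1 : ℂ) + d 2 + 1))) *
      (ℓ n ^ d 0 * h n ^ (d 1 + d 2)) = 0) :
    ∃ c : ℝ, ∀ n, ‖h n‖ ≤ c := by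
  by_contra hun
  push Not at hun
  obtain ⟨δ, g, M, c₀, hδ, hc₀, hgd, hgb⟩ := local_inverse hp hq hJ hb
  obtain ⟨cℓ, hcℓ⟩ := hℓ
  have hcℓ0 : 0 ≤ cℓ := (norm_nonneg _).trans (hcℓ 0)
  set K : ℝ := 4 * cℓ / δ + 1 with hK
  have hK0 : 0 < K := by positivity
  choose σ hσ using fun k : ℕ => hun (max K k)
  have hσK : ∀ k, K < ‖h (σ k)‖ := fun k => (le_max_left _ _).trans_lt (hσ k)
  have hσk : ∀ k : ℕ, (k : ℝ) < ‖h (σ k)‖ := fun k => (le_max_right _ _).trans_lt (hσ k)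
  set β : ℕ → ℂ := fun n => ℓ (σ n) / h (σ n) with hβ
  have hβn : ∀ n, ‖β n‖ < δ / 4 := by
    intro n
    rw [hβ, norm_div, div_lt_iff₀ (hK0.trans (hσK n))]
    calc ‖ℓ (σ n)‖ ≤ cℓ := hcℓ _
      _ < δ / 4 * K := by
        rw [hK]
        have e : δ / 4 * (4 * cℓ / δ + 1) = cℓ + δ / 4 := by
          field_simp
        rw [e]
        linarith
      _ ≤ δ / 4 * ‖h (σ n)‖ := mul_le_mul_of_nonneg_left (hσK n).le (by positivity)
  set ε : ℝ := δ / (4 * (1 + ‖μ‖)) with hε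
  have hμ0 : 0 ≤ ‖μ‖ := norm_nonneg _
  have hε0 : 0 < ε := by positivity
  have hεμ : ε * (1 + ‖μ‖) = δ / 4 := by
    rw [hε]
    field_simp
  have hpt : ∀ (n : ℕ) (z : ℂ), ‖z‖ ≤ ε → ((z, μ * z + β n) : ℂ × ℂ) ∈ ball (0 : ℂ × ℂ) δ := by
    intro n z hz
    rw [mem_ball, dist_zero_right, Prod.norm_def, max_lt_iff]
    have h1 : ε * 1 ≤ ε * (1 + ‖μ‖) := mul_le_mul_of_nonneg_left (by linarith) hε0.le
    constructor
    · change ‖z‖ < δ
      linarith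
    · change ‖μ * z + β n‖ < δ
      have h2 : ‖μ * z‖ ≤ ε * (1 + ‖μ‖) := by
        rw [norm_mul, mul_comm]
        exact mul_le_mul hz (by linarith) hμ0 hε0.le
      have h3 := norm_add_le (μ * z) (β n)
      have h4 := hβn n
      linarith
  have hsp : ∀ z : sphere (0 : ℂ) ε, ‖(z : ℂ)‖ ≤ ε := by
    intro z
    have := z.2
    rw [mem_sphere, dist_zero_right] at this
    exact this.le
  -- holomorphy
  have hev : ∀ (r : RR) (n : ℕ) (z : ℂ), ‖z‖ ≤ ε →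
      DifferentiableAt ℂ (fun ζ : ℂ => eval (g (ζ, μ * ζ + β n)) r) z := by
    intro r n z hz
    have h1 : DifferentiableAt ℂ g (z, μ * z + β n) :=
      (hgd _ (hpt n z hz)).differentiableAt (isOpen_ball.mem_nhds (hpt n z hz))
    have h2 : DifferentiableAt ℂ (fun x : Fin 2 → ℂ => eval x r) (g (z, μ * z + β n)) :=
      (AnalyticOnNhd.eval_mvPolynomial r _ (Set.mem_univ _)).differentiableAt
    have h3 : DifferentiableAt ℂ (fun ζ : ℂ => ((ζ, μ * ζ + β n) : ℂ × ℂ)) z := by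
      fun_prop
    exact h2.comp (f := fun ζ : ℂ => g (ζ, μ * ζ + β n)) z
      (h1.comp (f := fun ζ : ℂ => ((ζ, μ * ζ + β n) : ℂ × ℂ)) z h3)
  have hdc : ∀ F : ℂ → ℂ, (∀ z, ‖z‖ ≤ ε → DifferentiableAt ℂ F z) →
      DiffContOnCl ℂ F (ball 0 ε) := by
    intro F hF
    refine DifferentiableOn.diffContOnCl fun z hz => (hF z ?_).differentiableWithinAt
    have := closure_ball_subset_closedBall hz
    rwa [mem_closedBall, dist_zero_right] at this
  -- the evaluation map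
  set φ : RR →ₐ[ℂ] CA ε := aeval (fun i => ((fun n z => g ((z : ℂ), μ * (z : ℂ) + β n) i) : CA ε))
    with hφ
  have hφa : ∀ (r : RR) (n : ℕ) (z : sphere (0 : ℂ) ε),
      φ r n z = eval (g ((z : ℂ), μ * (z : ℂ) + β n)) r := by
    intro r n z
    induction r using MvPolynomial.induction_on with
    | C a =>
      rw [eval_C]
      have : φ (C a) = algebraMap ℂ (CA ε) a := φ.commutes a
      rw [this]
      rfl
    | add f g hf hg => rw [map_add, Pi.add_apply, Pi.add_apply, hf, hg, map_add]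
    | mul_X f i hf =>
      rw [map_mul, Pi.mul_apply, Pi.mul_apply, hf, map_mul, eval_X, hφ, aeval_X]
  set bi : CA ε := fun n z => (eval (g ((z : ℂ), μ * (z : ℂ) + β n)) b)⁻¹ with hbi
  have hb0 : ∀ (n : ℕ) (z : ℂ), ‖z‖ ≤ ε → c₀ ≤ ‖eval (g (z, μ * z + β n)) b‖ :=
    fun n z hz => (hgb _ (hpt n z hz)).2.2.2
  have hb0' : ∀ (n : ℕ) (z : ℂ), ‖z‖ ≤ ε → eval (g (z, μ * z + β n)) b ≠ 0 :=
    fun n z hz => norm_pos_iff.1 (hc₀.trans_le (hb0 n z hz))
  have hφU : ∀ r, φ r ∈ UC ε := fun r n =>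
    ⟨fun ζ => eval (g (ζ, μ * ζ + β n)) r, hdc _ (hev r n), fun z => hφa r n z⟩
  have hφV : ∀ r, φ r ∈ VC ε := by
    have hX : ∀ i, φ (X i) ∈ VC ε := by
      intro i
      refine ⟨M, fun n z => ?_⟩
      rw [hφa, eval_X]
      exact (hgb _ (hpt n z (hsp z))).2.2.1 i
    intro r
    induction r using MvPolynomial.induction_on with
    | C a =>
      have : φ (C a) = algebraMap ℂ (CA ε) a := φ.commutes a
      rw [this]
      exact (VC ε).algebraMap_mem a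
    | add f g hf hg => rw [map_add]; exact add_mem hf hg
    | mul_X f i hf => rw [map_mul]; exact mul_mem hf (hX i)
  have hβh : cst ε β * cst ε (fun n => h (σ n)) = cst ε (fun n => ℓ (σ n)) := by
    funext n z
    exact div_mul_cancel₀ _ (hh _)
  obtain ⟨u, hu, v, hv, huv⟩ := orbit_gen (A := CA ε) hx hy hz hs (UC ε) (VC ε) (kap_mul hε0)
    (cst ε β) (cst ε (fun n => h (σ n))) μ φ
    (by
      funext n z
      rw [hφa]
      exact (hgb _ (hpt n z (hsp z))).1)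
    (by
      funext n z
      rw [hφa]
      exact (hgb _ (hpt n z (hsp z))).2.1)
    hφU hφV (bi := bi)
    (by
      funext n z
      rw [Pi.mul_apply, Pi.mul_apply, hφa]
      exact mul_inv_cancel₀ (hb0' n z (hsp z)))
    (fun n => ⟨fun ζ => (eval (g (ζ, μ * ζ + β n)) b)⁻¹,
      hdc _ (fun z hz => (hev b n z hz).inv (hb0' n z hz)), fun z => rfl⟩)
    ⟨c₀⁻¹, fun n z => by
      rw [hbi, norm_inv]
      exact inv_anti₀ hc₀ (hb0 n z (hsp z))⟩
    (cst_mem_UC ε _) (kapi_mem_VC ε)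
    (cst_mem_VC ε ⟨δ / 4, fun n => (hβn n).le⟩)
    (by rw [hβh]; exact cst_mem_VC ε ⟨cℓ, fun n => hcℓ _⟩)
    (by
      intro d hd
      rw [hβh]
      obtain ⟨c, hc⟩ := hmem d hd
      exact ⟨c, fun n z => hc (σ n)⟩)
    (by
      rw [hβh]
      funext n z
      rw [Finset.sum_apply, Finset.sum_apply]
      exact hG (σ n))
  obtain ⟨c, hc⟩ := circ_bound hε0 (fun n => h (σ n)) hu hv huv
  obtain ⟨k, hk⟩ := exists_nat_gt c
  have h1 := hc k
  have h2 := hσk k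
  linarith

end Pool.Agent.H13.TD
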