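import Mathlib
import Pool.Agent.H41.TS.Seq
import Pool.Agent.H13.TD.SeqG
import Pool.Agent.H13.TD.LocNF
import Pool.Agent.H13.TD.Fib

/-!
# Globalisation: `D z ∈ R + D(R[x,y])`
-/

set_option autoImplicit false

open MvPolynomial

namespace Pool.Agent.H13.TD

open Pool.Agent.H41.TS

/-- the Jacobian determinant -/
noncomputable def jac (p q : RR) : RR := pderiv 0 p * pderiv 1 q - pderiv 1 p * pderiv 0 q

theorem loc_const {p q : RR} {m : Fin 2 → ℂ} (hp : eval m p = 0) (hq : eval m q = 0)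
    (hJ : eval m (jac p q) ≠ 0) {D : Derivation RR BB BB} (hx : D (X 0) = C p)
    (hy : D (X 1) = C q) {r : SS} (hz : D (X 2) = inc r) {s : BB} (hs : D s = 1) :
    ∃ b : RR, eval m b ≠ 0 ∧ ∃ (u : RR) (w : SS), C b * r = C u + D0 p q w := by
  obtain ⟨b₀, hb₀, hI⟩ := loc_cond hp hq hJ
  obtain ⟨b, hb, ρ, w, hw⟩ := loc_nf hb₀ hI r
  obtain ⟨h0, h1⟩ := fibre_coeff hp hq hx hy hz hb hw hs
  by_cases h2 : ∃ d ∈ ρ.support, d ≠ 0
  · obtain ⟨μ, ℓ, h, hh, hℓ, -, hmem, hG, hno⟩ := exists_seq ρ h0 h1 h2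
    have hz' : C b * D (X 2) = C b * inc (nf p q ρ) + D (inc w) := by
      rw [hz, ← inc_C b, ← map_mul, hw, map_add, map_mul, inc_D0 hx hy]
    exact absurd (seq_gen hp hq hJ hx hy hb hz' hs ℓ h hh hℓ μ hmem hG) hno
  · push Not at h2
    refine ⟨b, hb, b * C (ρ.coeff 0), w, ?_⟩
    have h3 : ρ = C (ρ.coeff 0) := by
      ext d
      rw [coeff_C]
      by_cases hd : d = 0
      · rw [hd, if_pos rfl]
      · rw [if_neg (Ne.symm hd)]
        by_contra hne
        exact hd (h2 d (mem_support_iff.2 hne))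
    rw [h3, nf_C] at hw
    rw [hw, C_mul]

theorem null {p q : RR} (J : Ideal RR) (K K' : ℕ) (hpJ : p ^ K ∈ J) (hqJ : q ^ K' ∈ J)
    (h : ∀ m, eval m p = 0 → eval m q = 0 → ∃ b ∈ J, eval m b ≠ 0) : J = ⊤ := by
  by_contra hne
  obtain ⟨M, hM, hJM⟩ := Ideal.exists_le_maximal J hne
  obtain ⟨m, rfl⟩ := isMaximal_iff_eq_vanishingIdeal_singleton.1 hM
  have hev : ∀ f : RR, f ∈ J → eval m f = 0 := by
    intro f hf
    have := (mem_vanishingIdeal_singleton_iff m f).1 (hJM hf)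
    exact this
  have hp : eval m p = 0 := by
    have := hev _ hpJ
    rw [map_pow] at this
    exact eq_zero_of_pow_eq_zero this
  have hq : eval m q = 0 := by
    have := hev _ hqJ
    rw [map_pow] at this
    exact eq_zero_of_pow_eq_zero this
  obtain ⟨b, hbJ, hb⟩ := h m hp hq
  exact hb (hev b hbJ)

theorem pow_mono_p (p q : RR) (i j : ℕ) : ∀ (v : ℕ) (c : RR),
    ∃ w, C (p ^ (j + 1)) * (C c * mon p q v i j) = D0 p q w := by
  induction j with
  | zero =>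
    intro v c
    obtain ⟨W, hW⟩ := low_p p q v i 0
    rw [Nat.cast_zero, zero_div, C_0, C_0, zero_mul, sub_zero] at hW
    refine ⟨C c * W, ?_⟩
    rw [← C_D0, ← hW, zero_add, pow_one]
    ring
  | succ j ih =>
    intro v c
    obtain ⟨W, hW⟩ := low_p p q v i (j + 1)
    rw [Nat.add_sub_cancel] at hW
    obtain ⟨w, hw⟩ := ih (v + 1) (c * C (((j + 1 : ℕ) : ℂ) / ((i + (j + 1) + 1 : ℕ) : ℂ)))
    refine ⟨C (p ^ (j + 1) * c) * W - w, ?_⟩
    rw [map_sub, ← hw, ← C_D0]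
    simp only [C_mul, pow_succ] at hw ⊢
    linear_combination (C (p ^ j) * C p * C c) * hW

theorem pow_mono_q (p q : RR) (j i : ℕ) : ∀ (v : ℕ) (c : RR),
    ∃ w, C (q ^ (i + 1)) * (C c * mon p q v i j) = D0 p q w := by
  induction i with
  | zero =>
    intro v c
    obtain ⟨W, hW⟩ := low_q p q v 0 j
    rw [Nat.cast_zero, zero_div, C_0, C_0, zero_mul, add_zero] at hW
    refine ⟨C c * W, ?_⟩
    rw [← C_D0, ← hW, zero_add, pow_one]
    ring
  | succ i ih =>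
    intro v c
    obtain ⟨W, hW⟩ := low_q p q v (i + 1) j
    rw [Nat.add_sub_cancel] at hW
    obtain ⟨w, hw⟩ := ih (v + 1) (c * C (((i + 1 : ℕ) : ℂ) / ((i + 1 + j + 1 : ℕ) : ℂ)))
    refine ⟨C (q ^ (i + 1) * c) * W + w, ?_⟩
    rw [map_add, ← hw, ← C_D0]
    simp only [C_mul, pow_succ] at hw ⊢
    linear_combination (C (q ^ i) * C q * C c) * hW

theorem mono_eq (p q : RR) (d : Fin 2 →₀ ℕ) (c : RR) :
    monomial d c = C c * mon p q 0 (d 0) (d 1) := by
  rw [mon, pow_zero, one_mul, monomial_eq, Finsupp.prod_fintype _ _ (fun i => pow_zero _),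
    Fin.prod_univ_two]

theorem pow_p (p q : RR) (r : SS) : ∃ (K : ℕ) (w : SS), C (p ^ K) * r = D0 p q w := by
  induction r using MvPolynomial.induction_on' with
  | monomial d c =>
    obtain ⟨w, hw⟩ := pow_mono_p p q (d 0) (d 1) 0 c
    exact ⟨d 1 + 1, w, by rw [mono_eq p q, hw]⟩
  | add f g hf hg =>
    obtain ⟨K, w, hw⟩ := hf
    obtain ⟨K', w', hw'⟩ := hg
    refine ⟨K + K', C (p ^ K') * w + C (p ^ K) * w', ?_⟩
    rw [map_add, ← C_D0, ← C_D0, ← hw, ← hw', pow_add, C_mul]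
    ring

theorem pow_q (p q : RR) (r : SS) : ∃ (K : ℕ) (w : SS), C (q ^ K) * r = D0 p q w := by
  induction r using MvPolynomial.induction_on' with
  | monomial d c =>
    obtain ⟨w, hw⟩ := pow_mono_q p q (d 1) (d 0) 0 c
    exact ⟨d 0 + 1, w, by rw [mono_eq p q, hw]⟩
  | add f g hf hg =>
    obtain ⟨K, w, hw⟩ := hf
    obtain ⟨K', w', hw'⟩ := hg
    refine ⟨K + K', C (q ^ K') * w + C (q ^ K) * w', ?_⟩
    rw [map_add, ← C_D0, ← C_D0, ← hw, ← hw', pow_add, C_mul]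
    ring

/-- denominators `b` with `b r ∈ R + D0(R[x,y])` -/
noncomputable def Jd (p q : RR) (r : SS) : Ideal RR where
  carrier := {b | ∃ (u : RR) (w : SS), C b * r = C u + D0 p q w}
  add_mem' := by
    rintro b b' ⟨u, w, h⟩ ⟨u', w', h'⟩
    exact ⟨u + u', w + w', by rw [C_add, C_add, map_add]; linear_combination h + h'⟩
  zero_mem' := ⟨0, 0, by simp⟩
  smul_mem' := by
    rintro c b ⟨u, w, h⟩
    exact ⟨c * u, C c * w, by
      rw [smul_eq_mul, C_mul, C_mul, ← C_D0]; linear_combination C c * h⟩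

theorem mem_Jd {p q : RR} {r : SS} {b : RR} :
    b ∈ Jd p q r ↔ ∃ (u : RR) (w : SS), C b * r = C u + D0 p q w := Iff.rfl

theorem global_nf {p q : RR} (hJ : ∀ m, eval m p = 0 → eval m q = 0 → eval m (jac p q) ≠ 0)
    {D : Derivation RR BB BB} (hx : D (X 0) = C p) (hy : D (X 1) = C q) {r : SS}
    (hz : D (X 2) = inc r) {s : BB} (hs : D s = 1) : ∃ (u : RR) (w : SS), r = C u + D0 p q w := by
  obtain ⟨K, w, hw⟩ := pow_p p q r
  obtain ⟨K', w', hw'⟩ := pow_q p q r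
  have h : Jd p q r = ⊤ := by
    refine null (Jd p q r) K K' ⟨0, w, by rw [hw, C_0, zero_add]⟩
      ⟨0, w', by rw [hw', C_0, zero_add]⟩ fun m hp hq => ?_
    obtain ⟨b, hb, u, w, hb'⟩ := loc_const hp hq (hJ m hp hq) hx hy hz hs
    exact ⟨b, ⟨u, w, hb'⟩, hb⟩
  have h1 : (1 : RR) ∈ Jd p q r := by rw [h]; trivial
  obtain ⟨u, w, h2⟩ := h1
  exact ⟨u, w, by rw [← h2, C_1, one_mul]⟩

theorem u_ne {p q : RR} {m : Fin 2 → ℂ} (hp : eval m p = 0) (hq : eval m q = 0)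
    {D : Derivation RR BB BB} (hx : D (X 0) = C p) (hy : D (X 1) = C q) {r : SS}
    (hz : D (X 2) = inc r) {s : BB} (hs : D s = 1) {u : RR} {w : SS}
    (hr : r = C u + D0 p q w) : eval m u ≠ 0 := by
  have h1 := fibre_unit hp hq hx hy hz hs
  rw [hr, map_add, fm_D0 hp hq, add_zero, fm_C] at h1
  intro h
  rw [h, C_0] at h1
  exact not_isUnit_zero h1

end Pool.Agent.H13.TD
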