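import Mathlib
import Pool.Agent.H13.TD.Glob

/-!
# Finitely many transversal common zeros, square roots on them
-/

set_option autoImplicit false

open MvPolynomial

namespace Pool.Agent.H13.TD

open Pool.Agent.H41.TS

/-- the common zeros -/
def VZ (p q : RR) : Set (Fin 2 → ℂ) := {m | eval m p = 0 ∧ eval m q = 0}

theorem eval_span {p q f : RR} (hf : f ∈ Ideal.span {p, q}) {m : Fin 2 → ℂ} (hm : m ∈ VZ p q) :
    eval m f = 0 := by
  obtain ⟨a, b, rfl⟩ := Ideal.mem_span_pair.1 hf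
  rw [map_add, map_mul, map_mul, hm.1, hm.2, mul_zero, mul_zero, add_zero]

theorem exists_b {p q : RR} (hJ : ∀ m, eval m p = 0 → eval m q = 0 → eval m (jac p q) ≠ 0) :
    ∃ b : (Fin 2 → ℂ) → RR, ∀ m ∈ VZ p q, eval m (b m) ≠ 0 ∧
      (∀ f : RR, eval m f = 0 → b m * f ∈ Ideal.span {p, q}) ∧
      ∀ m' ∈ VZ p q, m' ≠ m → eval m' (b m) = 0 := by
  have h : ∀ m, ∃ b : RR, m ∈ VZ p q → (eval m b ≠ 0 ∧
      (∀ f : RR, eval m f = 0 → b * f ∈ Ideal.span {p, q}) ∧
      ∀ m' ∈ VZ p q, m' ≠ m → eval m' b = 0) := by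
    intro m
    by_cases hm : m ∈ VZ p q
    · obtain ⟨b, hb, hbI⟩ := loc_cond hm.1 hm.2 (hJ m hm.1 hm.2)
      refine ⟨b, fun _ => ⟨hb, hbI, fun m' hm' hne => ?_⟩⟩
      obtain ⟨i, hi⟩ := Function.ne_iff.1 hne
      have h1 := eval_span (hbI (X i - C (m i)) (by rw [map_sub, eval_X, eval_C, sub_self])) hm'
      rw [map_mul, map_sub, eval_X, eval_C] at h1
      exact (mul_eq_zero.1 h1).resolve_right (sub_ne_zero.2 hi)
    · exact ⟨0, fun h => absurd h hm⟩
  choose b hb using h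
  exact ⟨b, fun m hm => hb m hm⟩

theorem VZ_finite {p q : RR} (hJ : ∀ m, eval m p = 0 → eval m q = 0 → eval m (jac p q) ≠ 0) :
    (VZ p q).Finite := by
  obtain ⟨b, hb⟩ := exists_b hJ
  have htop : Ideal.span ({p, q} ∪ b '' VZ p q) = ⊤ := by
    refine null (p := p) (q := q) _ 1 1 ?_ ?_ fun m hp hq => ?_
    · rw [pow_one]
      exact Ideal.subset_span (Or.inl (Set.mem_insert _ _))
    · rw [pow_one]
      exact Ideal.subset_span (Or.inl (Set.mem_insert_of_mem _ (Set.mem_singleton _)))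
    · exact ⟨b m, Ideal.subset_span (Or.inr ⟨m, ⟨hp, hq⟩, rfl⟩), (hb m ⟨hp, hq⟩).1⟩
  have h1 : (1 : RR) ∈ Ideal.span ({p, q} ∪ b '' VZ p q) := by rw [htop]; trivial
  obtain ⟨T, hTS, hT1⟩ := Submodule.mem_span_finite_of_mem_span h1
  have himg : b '' VZ p q ⊆ (T : Set RR) := by
    rintro _ ⟨m, hm, rfl⟩
    by_contra hnot
    have hle : Ideal.span (T : Set RR) ≤ RingHom.ker (eval m : RR →+* ℂ) := by
      rw [Ideal.span_le]
      intro t ht
      rw [SetLike.mem_coe, RingHom.mem_ker]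
      rcases hTS ht with h | ⟨m', hm', rfl⟩
      · rcases h with rfl | h
        · exact hm.1
        · rw [Set.mem_singleton_iff] at h
          rw [h]
          exact hm.2
      · refine (hb m' hm').2.2 m hm ?_
        rintro rfl
        exact hnot ht
    have h2 := hle hT1
    rw [RingHom.mem_ker, map_one] at h2
    exact one_ne_zero h2
  refine Set.Finite.of_finite_image (f := b) (T.finite_toSet.subset himg) ?_
  intro m hm m' hm' hbb
  by_contra hne
  have h2 := (hb m hm).2.2 m' hm' (Ne.symm hne)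
  rw [hbb] at h2
  exact (hb m' hm').1 h2

theorem exists_sqrt {p q : RR} (hJ : ∀ m, eval m p = 0 → eval m q = 0 → eval m (jac p q) ≠ 0)
    (u : RR) : ∃ v : RR, ∀ m ∈ VZ p q, eval m v ^ 2 = eval m u := by
  classical
  obtain ⟨b, hb⟩ := exists_b hJ
  have hfin := VZ_finite hJ
  have hs : ∀ c : ℂ, ∃ s : ℂ, s ^ 2 = c := fun c => IsAlgClosed.exists_pow_nat_eq c (by norm_num)
  choose sq hsq using hs
  refine ⟨∑ m ∈ hfin.toFinset, C (sq (eval m u) / eval m (b m)) * b m, fun m hm => ?_⟩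
  have h1 : eval m (∑ m' ∈ hfin.toFinset, C (sq (eval m' u) / eval m' (b m')) * b m') =
      sq (eval m u) := by
    rw [map_sum, Finset.sum_eq_single m]
    · rw [map_mul, eval_C, div_mul_cancel₀ _ (hb m hm).1]
    · intro m' hm' hne
      rw [map_mul, (hb m' (hfin.mem_toFinset.1 hm')).2.2 m hm (Ne.symm hne), mul_zero]
    · intro h
      exact absurd (hfin.mem_toFinset.2 hm) h
  rw [h1, hsq]

/-- a polynomial vanishing at all common zeros is in `(p,q)` -/
theorem mem_of_vanish {p q : RR}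
    (hJ : ∀ m, eval m p = 0 → eval m q = 0 → eval m (jac p q) ≠ 0) {f : RR}
    (hf : ∀ m ∈ VZ p q, eval m f = 0) : f ∈ Ideal.span {p, q} := by
  obtain ⟨b, hb⟩ := exists_b hJ
  set Kd : Ideal RR := Submodule.comap (LinearMap.toSpanSingleton RR RR f) (Ideal.span {p, q})
    with hKd
  have hmem : ∀ c, c ∈ Kd ↔ c * f ∈ Ideal.span {p, q} := fun c => Iff.rfl
  have htop : Kd = ⊤ := by
    refine null (p := p) (q := q) _ 1 1 ?_ ?_ fun m hp hq => ?_
    · rw [pow_one, hmem]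
      exact Ideal.mul_mem_right _ _ (Ideal.subset_span (Set.mem_insert _ _))
    · rw [pow_one, hmem]
      exact Ideal.mul_mem_right _ _
        (Ideal.subset_span (Set.mem_insert_of_mem _ (Set.mem_singleton _)))
    · exact ⟨b m, (hmem _).2 ((hb m ⟨hp, hq⟩).2.1 f (hf m ⟨hp, hq⟩)), (hb m ⟨hp, hq⟩).1⟩
  have h1 : (1 : RR) ∈ Kd := by rw [htop]; trivial
  rw [hmem, one_mul] at h1
  exact h1

theorem unimod {p q u : RR} (hu : ∀ m ∈ VZ p q, eval m u ≠ 0) :
    Ideal.span {p, q, u} = ⊤ := by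
  refine null (p := p) (q := q) _ 1 1 ?_ ?_ fun m hp hq => ?_
  · rw [pow_one]
    exact Ideal.subset_span (Set.mem_insert _ _)
  · rw [pow_one]
    exact Ideal.subset_span (Set.mem_insert_of_mem _ (Set.mem_insert _ _))
  · exact ⟨u, Ideal.subset_span (Set.mem_insert_of_mem _ (Set.mem_insert_of_mem _
      (Set.mem_singleton _))), hu m ⟨hp, hq⟩⟩

end Pool.Agent.H13.TD
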