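import Mathlib
import Pool.Agent.H41.TS.Ker

/-!
# The kernel of `D x = p`, `D y = q`, `D z = v² + D w` with `(p, q, v)` unimodular

The unimodular row `(v², p, q)` is completed to an invertible matrix by the explicit matrix of
Swan–Towber and Krusemeyer.
-/

set_option autoImplicit false

open MvPolynomial

namespace Pool.Agent.H13.TD

open Pool.Agent.H41.TS

/-- conjugation by an automorphism -/
noncomputable def cj (e : BB ≃ₐ[RR] BB) (D : Derivation RR BB BB) : Derivation RR BB BB :=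
  Derivation.mk' (e.symm.toLinearMap ∘ₗ (D : BB →ₗ[RR] BB) ∘ₗ e.toLinearMap) (by
    intro a b
    change e.symm (D (e (a * b))) = a • e.symm (D (e b)) + b • e.symm (D (e a))
    rw [map_mul, Derivation.leibniz, map_add, smul_eq_mul, smul_eq_mul, map_mul, map_mul,
      AlgEquiv.symm_apply_apply, AlgEquiv.symm_apply_apply, smul_eq_mul, smul_eq_mul])

theorem cj_apply (e : BB ≃ₐ[RR] BB) (D : Derivation RR BB BB) (f : BB) :
    cj e D f = e.symm (D (e f)) := rfl

theorem ker_of_cj (e : BB ≃ₐ[RR] BB) (D : Derivation RR BB BB)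
    (h : ∃ φ : SS →ₐ[RR] BB, Function.Injective φ ∧ ∀ f, cj e D f = 0 ↔ f ∈ φ.range) :
    ∃ φ : SS →ₐ[RR] BB, Function.Injective φ ∧ ∀ f, D f = 0 ↔ f ∈ φ.range := by
  obtain ⟨φ, hφ, hk⟩ := h
  refine ⟨(e : BB →ₐ[RR] BB).comp φ, e.injective.comp hφ, fun f => ?_⟩
  have h1 : D f = 0 ↔ cj e D (e.symm f) = 0 := by
    rw [cj_apply, AlgEquiv.apply_symm_apply]
    exact (EmbeddingLike.map_eq_zero_iff (f := e.symm)).symm
  rw [h1, hk]
  constructor
  · rintro ⟨g, hg⟩
    refine ⟨g, ?_⟩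
    have hg' : φ g = e.symm f := hg
    change e (φ g) = f
    rw [hg', AlgEquiv.apply_symm_apply]
  · rintro ⟨g, hg⟩
    refine ⟨g, ?_⟩
    have hg' : e (φ g) = f := hg
    change φ g = e.symm f
    rw [← hg', AlgEquiv.symm_apply_apply]

/-- the linear substitution with matrix `N` -/
noncomputable def lin (N : Matrix (Fin 3) (Fin 3) RR) : BB →ₐ[RR] BB :=
  aeval (fun i => ∑ j, C (N i j) * X j)

theorem lin_X (N : Matrix (Fin 3) (Fin 3) RR) (i : Fin 3) :
    lin N (X i) = ∑ j, C (N i j) * X j := by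
  rw [lin, aeval_X]

theorem lin_C (N : Matrix (Fin 3) (Fin 3) RR) (r : RR) : lin N (C r) = C r := (lin N).commutes r

theorem lin_comp (M N : Matrix (Fin 3) (Fin 3) RR) : (lin N).comp (lin M) = lin (M * N) := by
  apply MvPolynomial.algHom_ext
  intro i
  rw [AlgHom.comp_apply, lin_X, lin_X, map_sum]
  have h1 : ∀ j, lin N (C (M i j) * X j) = ∑ k, C (M i j * N j k) * X k := by
    intro j
    rw [map_mul, lin_C, lin_X, Finset.mul_sum]
    refine Finset.sum_congr rfl fun k _ => ?_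
    rw [C_mul, mul_assoc]
  rw [Finset.sum_congr rfl fun j _ => h1 j, Finset.sum_comm]
  refine Finset.sum_congr rfl fun k _ => ?_
  rw [Matrix.mul_apply, map_sum, Finset.sum_mul]

theorem lin_one : lin 1 = AlgHom.id RR BB := by
  apply MvPolynomial.algHom_ext
  intro i
  rw [lin_X, AlgHom.id_apply, Finset.sum_eq_single i]
  · rw [Matrix.one_apply_eq, C_1, one_mul]
  · intro j _ hj
    rw [Matrix.one_apply_ne (Ne.symm hj), C_0, zero_mul]
  · intro h
    exact absurd (Finset.mem_univ i) h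

/-- the automorphism given by an invertible matrix -/
noncomputable def linE (M N : Matrix (Fin 3) (Fin 3) RR) (h : M * N = 1) (h' : N * M = 1) :
    BB ≃ₐ[RR] BB :=
  AlgEquiv.ofAlgHom (lin N) (lin M) (by rw [lin_comp, h, lin_one]) (by rw [lin_comp, h', lin_one])

/-- the substitution `z ↦ z + w(x,y)` -/
noncomputable def shz (w : SS) : BB →ₐ[RR] BB := aeval ![X 0, X 1, X 2 + inc w]

theorem shz_X0 (w : SS) : shz w (X 0) = X 0 := by rw [shz, aeval_X]; rfl
theorem shz_X1 (w : SS) : shz w (X 1) = X 1 := by rw [shz, aeval_X]; rfl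
theorem shz_X2 (w : SS) : shz w (X 2) = X 2 + inc w := by rw [shz, aeval_X]; rfl

theorem shz_inc (w f : SS) : shz w (inc f) = inc f := by
  have h : (shz w).comp inc = inc := by
    apply MvPolynomial.algHom_ext
    intro i
    rw [AlgHom.comp_apply]
    fin_cases i
    · simp only [Fin.zero_eta]
      rw [inc_X0, shz_X0]
    · simp only [Fin.mk_one]
      rw [inc_X1, shz_X1]
  exact DFunLike.congr_fun h f

theorem shz_comp (w w' : SS) (h : w + w' = 0) : (shz w).comp (shz w') = AlgHom.id RR BB := by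
  apply MvPolynomial.algHom_ext
  intro i
  rw [AlgHom.comp_apply, AlgHom.id_apply]
  fin_cases i
  · simp only [Fin.zero_eta]
    rw [shz_X0, shz_X0]
  · simp only [Fin.mk_one]
    rw [shz_X1, shz_X1]
  · simp only [Fin.reduceFinMk]
    rw [shz_X2, map_add, shz_inc, shz_X2, add_assoc, ← map_add, h, map_zero, add_zero]

/-- the automorphism `z ↦ z - w` -/
noncomputable def shE (w : SS) : BB ≃ₐ[RR] BB :=
  AlgEquiv.ofAlgHom (shz (-w)) (shz w) (shz_comp _ _ (neg_add_cancel w))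
    (shz_comp _ _ (add_neg_cancel w))

theorem eqC (e : BB ≃ₐ[RR] BB) (r : RR) : e (C r) = C r := e.commutes r

/-- the matrix of Swan–Towber and Krusemeyer -/
noncomputable def kru (p q v α β γ : RR) : Matrix (Fin 3) (Fin 3) RR :=
  ![![γ ^ 2, -α - β * γ, p], ![α - β * γ, β ^ 2, q],
    ![-p - 2 * v * γ, -q + 2 * v * β, v ^ 2]]

theorem det_kru {p q v α β γ : RR} (h : α * v + β * p + γ * q = 1) :
    (kru p q v α β γ).det = 1 := by
  rw [Matrix.det_fin_three]
  simp only [kru, Matrix.cons_val_zero, Matrix.cons_val_one, Matrix.cons_val]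
  linear_combination (α * v + β * p + γ * q + 1) * h

theorem kru_col {p q v α β γ : RR} :
    kru p q v α β γ 0 2 = p ∧ kru p q v α β γ 1 2 = q ∧ kru p q v α β γ 2 2 = v ^ 2 :=
  ⟨rfl, rfl, rfl⟩

theorem ker_col {p q u : RR} {D : Derivation RR BB BB} (hx : D (X 0) = C p) (hy : D (X 1) = C q)
    {w : SS} (hz : D (X 2) = C u + D (inc w)) {M : Matrix (Fin 3) (Fin 3) RR} (hdet : M.det = 1)
    (hM0 : M 0 2 = p) (hM1 : M 1 2 = q) (hM2' : M 2 2 = u) :
    ∃ φ : SS →ₐ[RR] BB, Function.Injective φ ∧ ∀ f : BB, D f = 0 ↔ f ∈ φ.range := by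
  apply ker_of_cj (shE w)
  set D₁ := cj (shE w) D with hD₁
  have hx₁ : D₁ (X 0) = C p := by
    have h1 : shE w (X 0) = X 0 := shz_X0 _
    rw [hD₁, cj_apply, h1, hx, eqC]
  have hy₁ : D₁ (X 1) = C q := by
    have h1 : shE w (X 1) = X 1 := shz_X1 _
    rw [hD₁, cj_apply, h1, hy, eqC]
  have hz₁ : D₁ (X 2) = C u := by
    have h1 : shE w (X 2) = X 2 - inc w := by
      have : shE w (X 2) = X 2 + inc (-w) := shz_X2 _
      rw [this, map_neg, sub_eq_add_neg]
    rw [hD₁, cj_apply, h1, map_sub, hz, add_sub_cancel_right, eqC]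
  set N := M.adjugate with hN
  have hMN : M * N = 1 := by rw [hN, Matrix.mul_adjugate, hdet, one_smul]
  have hNM : N * M = 1 := by rw [hN, Matrix.adjugate_mul, hdet, one_smul]
  apply ker_of_cj (linE M N hMN hNM)
  set D₂ := cj (linE M N hMN hNM) D₁ with hD₂
  have hM2 : ∀ j, D₁ (X j) = C (M j 2) := by
    intro j
    fin_cases j
    · simp only [Fin.zero_eta]
      rw [hx₁, hM0]
    · simp only [Fin.mk_one]
      rw [hy₁, hM1]
    · simp only [Fin.reduceFinMk]
      rw [hz₁, hM2']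
  have hD₂X : ∀ i, D₂ (X i) = C ((1 : Matrix (Fin 3) (Fin 3) RR) i 2) := by
    intro i
    have h1 : linE M N hMN hNM (X i) = ∑ j, C (N i j) * X j := lin_X N i
    have h2 : D₁ (∑ j, C (N i j) * X j) = C ((N * M) i 2) := by
      rw [map_sum, Matrix.mul_apply, map_sum]
      refine Finset.sum_congr rfl fun j _ => ?_
      rw [Derivation.leibniz, D_C, smul_zero, add_zero, hM2, smul_eq_mul, C_mul]
    rw [hD₂, cj_apply, h1, h2, eqC, hNM]
  have h0 : D₂ (X 0) = C 0 := by rw [hD₂X]; rfl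
  have h1 : D₂ (X 1) = C 0 := by rw [hD₂X]; rfl
  have h2 : D₂ (X 2) = C (C (1 : ℂ)) + D₂ (inc 0) := by
    rw [hD₂X, map_zero, map_zero, add_zero]
    rfl
  exact ker_const h0 h1 one_ne_zero h2

theorem ker_unim {p q v : RR} {D : Derivation RR BB BB} (hx : D (X 0) = C p) (hy : D (X 1) = C q)
    {w : SS} (hz : D (X 2) = C (v ^ 2) + D (inc w)) {α β γ : RR}
    (h : α * v + β * p + γ * q = 1) :
    ∃ φ : SS →ₐ[RR] BB, Function.Injective φ ∧ ∀ f : BB, D f = 0 ↔ f ∈ φ.range :=
  ker_col hx hy hz (det_kru h) rfl rfl rfl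

end Pool.Agent.H13.TD
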