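import Mathlib
import Pool.Agent.H13.TD.Cop
import Pool.Agent.H13.TD.Unim

/-!
# Unimodular rows of length three over `ℂ[a,b]` can be completed
-/

set_option autoImplicit false

open MvPolynomial

namespace Pool.Agent.H13.TD

open Pool.Agent.H41.TS

/-- a constant `μ` with `h` and `f + μ g` coprime -/
theorem exists_mu_coprime {h f g : RR} (hh : h ≠ 0)
    (hc : ∀ π : RR, Prime π → π ∣ h → π ∣ f → ¬ π ∣ g) :
    ∃ μ : ℂ, IsRelPrime h (f + C μ * g) := by
  classical
  have hfin : {μ : ℂ | ∃ π ∈ UniqueFactorizationMonoid.factors h, π ∣ f + C μ * g}.Finite := by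
    have hU : {μ : ℂ | ∃ π ∈ UniqueFactorizationMonoid.factors h, π ∣ f + C μ * g} =
        ⋃ π ∈ (UniqueFactorizationMonoid.factors h).toFinset, {μ : ℂ | π ∣ f + C μ * g} := by
      ext μ
      simp
    rw [hU]
    refine Set.Finite.biUnion (Finset.finite_toSet _) fun π hπ => ?_
    rw [Finset.mem_coe, Multiset.mem_toFinset] at hπ
    have hπp := UniqueFactorizationMonoid.prime_of_factor π hπ
    have hπh := UniqueFactorizationMonoid.dvd_of_mem_factors hπ
    refine Set.Subsingleton.finite fun μ hμ μ' hμ' => ?_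
    by_contra hne
    have h1 : π ∣ C (μ - μ') * g := by
      have := dvd_sub hμ hμ'
      rwa [show f + C μ * g - (f + C μ' * g) = C (μ - μ') * g by rw [C_sub]; ring] at this
    have h2 : π ∣ g := by
      have h3 := dvd_mul_of_dvd_right h1 (C (μ - μ')⁻¹)
      rwa [← mul_assoc, ← C_mul, inv_mul_cancel₀ (sub_ne_zero.2 hne), C_1, one_mul] at h3
    have h4 : π ∣ f := by
      have h5 := dvd_sub hμ (dvd_mul_of_dvd_right h2 (C μ))
      rwa [add_sub_cancel_right] at h5
    exact hc π hπp hπh h4 h2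
  obtain ⟨μ, hμ⟩ := hfin.infinite_compl.nonempty
  refine ⟨μ, ?_⟩
  intro d hd1 hd2
  by_contra hdu
  have hd0 : d ≠ 0 := by
    rintro rfl
    exact hh (zero_dvd_iff.1 hd1)
  obtain ⟨π, hπ⟩ := UniqueFactorizationMonoid.exists_mem_factors hd0 hdu
  have hπd := UniqueFactorizationMonoid.dvd_of_mem_factors hπ
  have hπp := UniqueFactorizationMonoid.irreducible_of_factor π hπ
  obtain ⟨π', hπ', has⟩ := UniqueFactorizationMonoid.exists_mem_factors_of_dvd hh hπp
    (hπd.trans hd1)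
  exact hμ ⟨π', hπ', has.symm.dvd.trans (hπd.trans hd2)⟩

theorem dvd_one_of_span {f g h π : RR} (hs : Ideal.span {f, g, h} = ⊤) (h1 : π ∣ f) (h2 : π ∣ g)
    (h3 : π ∣ h) : IsUnit π := by
  have h4 : (1 : RR) ∈ Ideal.span {f, g, h} := by rw [hs]; trivial
  obtain ⟨α, β, γ, h5⟩ := Submodule.mem_span_triple.1 h4
  rw [isUnit_iff_dvd_one, ← h5]
  exact dvd_add (dvd_add (dvd_mul_of_dvd_right h1 _) (dvd_mul_of_dvd_right h2 _))
    (dvd_mul_of_dvd_right h3 _)

theorem exists_coprime {f g h : RR} (hs : Ideal.span {f, g, h} = ⊤) :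
    ∃ lam μ : ℂ, IsRelPrime (f + C lam * h) (g + C μ * h) := by
  by_cases h0 : ∃ lam : ℂ, f + C lam * h ≠ 0
  · obtain ⟨lam, hlam⟩ := h0
    obtain ⟨μ, hμ⟩ := exists_mu_coprime (h := f + C lam * h) (f := g) (g := h) hlam (by
      intro π hπ h1 h2 h3
      refine hπ.not_isUnit (dvd_one_of_span hs ?_ h2 h3)
      have h4 := dvd_sub h1 (dvd_mul_of_dvd_right h3 (C lam))
      rwa [add_sub_cancel_right] at h4)
    exact ⟨lam, μ, hμ⟩
  · push Not at h0
    have hf : f = 0 := by
      have := h0 0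
      rwa [C_0, zero_mul, add_zero] at this
    have hh : h = 0 := by
      have := h0 1
      rwa [C_1, one_mul, hf, zero_add] at this
    refine ⟨0, 0, ?_⟩
    rw [C_0, zero_mul, add_zero, add_zero, hf]
    intro d _ hd
    exact isUnit_of_dvd_unit hd (dvd_one_of_span hs (by rw [hf]; exact dvd_zero g) dvd_rfl
      (by rw [hh]; exact dvd_zero g))

theorem span_change {f g h : RR} (hs : Ideal.span {f, g, h} = ⊤) (a b : RR) :
    Ideal.span {f + a * h, g + b * h, h} = ⊤ := by
  rw [Ideal.eq_top_iff_one]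
  have h4 : (1 : RR) ∈ Ideal.span {f, g, h} := by rw [hs]; trivial
  obtain ⟨α, β, γ, h5⟩ := Submodule.mem_span_triple.1 h4
  refine Submodule.mem_span_triple.2 ⟨α, β, γ - α * a - β * b, ?_⟩
  rw [← h5]
  simp only [smul_eq_mul]
  ring

theorem span_sq {f g h v : RR} (hs : Ideal.span {f, g, h} = ⊤)
    (hv : h - v ^ 2 ∈ Ideal.span {f, g}) : Ideal.span {f, g, v} = ⊤ := by
  rw [Ideal.eq_top_iff_one]
  have h4 : (1 : RR) ∈ Ideal.span {f, g, h} := by rw [hs]; trivial
  obtain ⟨α, β, γ, h5⟩ := Submodule.mem_span_triple.1 h4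
  obtain ⟨c, d, hcd⟩ := Ideal.mem_span_pair.1 hv
  refine Submodule.mem_span_triple.2 ⟨α + γ * c, β + γ * d, γ * v, ?_⟩
  rw [← h5]
  simp only [smul_eq_mul]
  linear_combination γ * hcd

/-- **Completion of unimodular rows of length three** (Seshadri; the proof by the matrix of
Swan–Towber and Krusemeyer). -/
theorem qs3 {f g h : RR} (hs : Ideal.span {f, g, h} = ⊤) :
    ∃ M : Matrix (Fin 3) (Fin 3) RR, M.det = 1 ∧ M 0 2 = f ∧ M 1 2 = g ∧ M 2 2 = h := by
  obtain ⟨lam, μ, hcop⟩ := exists_coprime hs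
  set f' := f + C lam * h with hf'
  set g' := g + C μ * h with hg'
  have hs' : Ideal.span {f', g', h} = ⊤ := span_change hs _ _
  obtain ⟨v, hv⟩ := exists_sq_mod hcop h hs'
  have hs'' := span_sq hs' hv
  obtain ⟨c, d, hcd⟩ := Ideal.mem_span_pair.1 hv
  have h4 : (1 : RR) ∈ Ideal.span {f', g', v} := by rw [hs'']; trivial
  obtain ⟨β, γ, α, h5⟩ := Submodule.mem_span_triple.1 h4
  simp only [smul_eq_mul] at h5
  set K := kru f' g' v α β γ with hK
  have hdet : K.det = 1 := det_kru (by rw [← h5]; ring)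
  set E : Matrix (Fin 3) (Fin 3) RR :=
    ![![1 - C lam * c, - (C lam * d), - C lam], ![- (C μ * c), 1 - C μ * d, - C μ], ![c, d, 1]]
    with hE
  have hEdet : E.det = 1 := by
    rw [Matrix.det_fin_three]
    simp only [hE, Matrix.cons_val_zero, Matrix.cons_val_one, Matrix.cons_val]
    ring
  have hcol : ∀ i, (E * K) i 2 = E i 0 * f' + E i 1 * g' + E i 2 * v ^ 2 := by
    intro i
    rw [Matrix.mul_apply, Fin.sum_univ_three]
    rfl
  refine ⟨E * K, by rw [Matrix.det_mul, hEdet, hdet, one_mul], ?_, ?_, ?_⟩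
  · rw [hcol]
    simp only [hE, Matrix.cons_val_zero, Matrix.cons_val_one, Matrix.cons_val]
    linear_combination hf' - C lam * hcd
  · rw [hcol]
    simp only [hE, Matrix.cons_val_zero, Matrix.cons_val_one, Matrix.cons_val]
    linear_combination hg' - C μ * hcd
  · rw [hcol]
    simp only [hE, Matrix.cons_val_zero, Matrix.cons_val_one, Matrix.cons_val]
    linear_combination hcd

/-- the kernel of `D x = p`, `D y = q`, `D z = u + D w` with `(p, q, u)` unimodular -/
theorem ker_lin {p q u : RR} (hs : Ideal.span {p, q, u} = ⊤) {D : Derivation RR BB BB}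
    (hx : D (X 0) = C p) (hy : D (X 1) = C q) {w : SS} (hz : D (X 2) = C u + D (inc w)) :
    ∃ φ : SS →ₐ[RR] BB, Function.Injective φ ∧ ∀ f : BB, D f = 0 ↔ f ∈ φ.range := by
  obtain ⟨M, hdet, h0, h1, h2⟩ := qs3 hs
  exact ker_col hx hy hz hdet h0 h1 h2

end Pool.Agent.H13.TD
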