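import Mathlib
import Pool.Agent.H13.TD.Sqrt
import Pool.Agent.H13.TD.Cop

/-!
# Radical ideals `(p, q)`
-/

set_option autoImplicit false

open MvPolynomial

namespace Pool.Agent.H13.TD

open Pool.Agent.H41.TS

theorem mem_rad {p q f : RR} (hrad : (Ideal.span {p, q}).IsRadical)
    (hf : ∀ m ∈ VZ p q, eval m f = 0) : f ∈ Ideal.span {p, q} := by
  have h1 : f ∈ vanishingIdeal ℂ (zeroLocus ℂ (Ideal.span {p, q})) := by
    rw [mem_vanishingIdeal_iff]
    intro m hm
    rw [mem_zeroLocus_iff] at hm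
    exact hf m ⟨hm p (Ideal.subset_span (Set.mem_insert _ _)),
      hm q (Ideal.subset_span (Set.mem_insert_of_mem _ (Set.mem_singleton _)))⟩
  rw [MvPolynomial.vanishingIdeal_zeroLocus_eq_radical] at h1
  exact hrad h1

theorem VZ_finite_cop {p q : RR} (h : IsRelPrime p q) : (VZ p q).Finite := by
  by_cases hp : p = 0
  · subst hp
    have hq : IsUnit q := h (dvd_zero q) dvd_rfl
    have : VZ 0 q = ∅ := by
      ext m
      simp only [Set.mem_empty_iff_false, iff_false]
      intro hm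
      have h1 := hq.map (eval m)
      rw [hm.2] at h1
      exact not_isUnit_zero h1
    rw [this]
    exact Set.finite_empty
  have hart := artinian_of_coprime h hp
  set I := Ideal.span {p, q} with hI
  have hker : ∀ m : VZ p q, ∀ a ∈ I, (eval (m : Fin 2 → ℂ) : RR →+* ℂ) a = 0 :=
    fun m a ha => eval_span ha m.2
  set ev : VZ p q → (RR ⧸ I →+* ℂ) := fun m => Ideal.Quotient.lift I (eval (m : Fin 2 → ℂ)) (hker m)
    with hev
  have heva : ∀ (m : VZ p q) (f : RR), ev m (Ideal.Quotient.mk I f) = eval (m : Fin 2 → ℂ) f :=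
    fun m f => Ideal.Quotient.lift_mk I _ _
  have hsurj : ∀ m, Function.Surjective (ev m) := by
    intro m c
    exact ⟨Ideal.Quotient.mk I (C c), by rw [heva, eval_C]⟩
  have hmax : ∀ m, (RingHom.ker (ev m)).IsMaximal :=
    fun m => RingHom.ker_isMaximal_of_surjective (ev m) (hsurj m)
  have hinj : Function.Injective (fun m : VZ p q =>
      (⟨RingHom.ker (ev m), hmax m⟩ : MaximalSpectrum (RR ⧸ I))) := by
    intro m m' hmm
    have h1 : RingHom.ker (ev m) = RingHom.ker (ev m') := congrArg MaximalSpectrum.asIdeal hmm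
    ext i
    have h2 : Ideal.Quotient.mk I (X i - C ((m : Fin 2 → ℂ) i)) ∈ RingHom.ker (ev m) := by
      rw [RingHom.mem_ker, heva, map_sub, eval_X, eval_C, sub_self]
    rw [h1, RingHom.mem_ker, heva, map_sub, eval_X, eval_C, sub_eq_zero] at h2
    exact h2.symm
  have hfin : Finite (VZ p q) := Finite.of_injective _ hinj
  exact Set.toFinite _

theorem exists_sep {V : Set (Fin 2 → ℂ)} (hV : V.Finite) (m : Fin 2 → ℂ) :
    ∃ h : RR, eval m h ≠ 0 ∧ ∀ m' ∈ V, m' ≠ m → eval m' h = 0 := by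
  classical
  have h1 : ∀ m' : Fin 2 → ℂ, ∃ k : RR, m' ≠ m → (eval m k ≠ 0 ∧ eval m' k = 0) := by
    intro m'
    by_cases hne : m' ≠ m
    · obtain ⟨i, hi⟩ := Function.ne_iff.1 hne
      refine ⟨X i - C (m' i), fun _ => ⟨?_, ?_⟩⟩
      · rw [map_sub, eval_X, eval_C]
        exact sub_ne_zero.2 (Ne.symm hi)
      · rw [map_sub, eval_X, eval_C, sub_self]
    · exact ⟨0, fun h => absurd h hne⟩
  choose k hk using h1
  refine ⟨∏ m' ∈ hV.toFinset.filter (fun m' => m' ≠ m), k m', ?_, fun m' hm' hne => ?_⟩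
  · rw [map_prod]
    exact Finset.prod_ne_zero_iff.2 fun m' hm' => (hk m' (Finset.mem_filter.1 hm').2).1
  · rw [map_prod]
    exact Finset.prod_eq_zero (Finset.mem_filter.2 ⟨hV.mem_toFinset.2 hm', hne⟩) (hk m' hne).2

theorem span_mul {g p q f : RR} (hg : g ≠ 0) (h : g * f ∈ Ideal.span {g * p, g * q}) :
    f ∈ Ideal.span {p, q} := by
  obtain ⟨a, b, hab⟩ := Ideal.mem_span_pair.1 h
  refine Ideal.mem_span_pair.2 ⟨a, b, ?_⟩
  apply mul_left_cancel₀ hg
  rw [← hab]
  ring

theorem dvd_of_span {g p q f : RR} (h : f ∈ Ideal.span {g * p, g * q}) : g ∣ f := by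
  obtain ⟨a, b, hab⟩ := Ideal.mem_span_pair.1 h
  exact ⟨a * p + b * q, by rw [← hab]; ring⟩

theorem VZ_mul {g p q : RR} {m : Fin 2 → ℂ} (hm : m ∈ VZ (g * p) (g * q)) :
    eval m g = 0 ∨ m ∈ VZ p q := by
  obtain ⟨h1, h2⟩ := hm
  rw [map_mul] at h1 h2
  by_cases hg : eval m g = 0
  · exact Or.inl hg
  · exact Or.inr ⟨(mul_eq_zero.1 h1).resolve_left hg, (mul_eq_zero.1 h2).resolve_left hg⟩

theorem g_ne {g p q : RR} (hg : g ≠ 0) (hpq : IsRelPrime p q)
    (hrad : (Ideal.span {g * p, g * q}).IsRadical) {m : Fin 2 → ℂ} (hm : m ∈ VZ p q) :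
    eval m g ≠ 0 := by
  intro h0
  obtain ⟨h, hh, hh'⟩ := exists_sep (VZ_finite_cop hpq) m
  have h1 : g * h ∈ Ideal.span {g * p, g * q} := by
    refine mem_rad hrad fun m' hm' => ?_
    rw [map_mul]
    rcases VZ_mul hm' with h2 | h2
    · rw [h2, zero_mul]
    · by_cases hmm : m' = m
      · rw [hmm, h0, zero_mul]
      · rw [hh' m' h2 hmm, mul_zero]
  exact hh (eval_span (span_mul hg h1) hm)

theorem rad_loc {g p q : RR} (hg : g ≠ 0) (hpq : IsRelPrime p q)
    (hrad : (Ideal.span {g * p, g * q}).IsRadical) {m : Fin 2 → ℂ} (hm : m ∈ VZ p q) :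
    ∃ b : RR, eval m b ≠ 0 ∧ ∀ f : RR, eval m f = 0 → b * f ∈ Ideal.span {g * p, g * q} := by
  obtain ⟨h, hh, hh'⟩ := exists_sep (VZ_finite_cop hpq) m
  refine ⟨g * h, ?_, fun f hf => mem_rad hrad fun m' hm' => ?_⟩
  · rw [map_mul]
    exact mul_ne_zero (g_ne hg hpq hrad hm) hh
  · rw [map_mul, map_mul]
    rcases VZ_mul hm' with h2 | h2
    · rw [h2, zero_mul, zero_mul]
    · by_cases hmm : m' = m
      · rw [hmm, hf, mul_zero]
      · rw [hh' m' h2 hmm, mul_zero, zero_mul]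

theorem jac_ne {p q b : RR} {m : Fin 2 → ℂ} (hp : eval m p = 0) (hq : eval m q = 0)
    (hb : eval m b ≠ 0) (hI : ∀ f : RR, eval m f = 0 → b * f ∈ Ideal.span {p, q}) :
    eval m (jac p q) ≠ 0 := by
  have h : ∀ i : Fin 2, ∃ α β : RR, α * p + β * q = b * (X i - C (m i)) := fun i =>
    Ideal.mem_span_pair.1 (hI _ (by rw [map_sub, eval_X, eval_C, sub_self]))
  choose α β hαβ using h
  have hd : ∀ i j : Fin 2, eval m (α i) * eval m (pderiv j p) + eval m (β i) * eval m (pderiv j q) =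
      eval m b * (if i = j then 1 else 0) := by
    intro i j
    have h1 := congrArg (fun f => eval m (pderiv j f)) (hαβ i)
    simp only [map_add, pderiv_mul, map_sub, map_mul, hp, hq, mul_zero, zero_add,
      pderiv_C, sub_zero, eval_X, eval_C, sub_self, pderiv_X] at h1
    rw [h1]
    congr 1
    by_cases hij : i = j
    · subst hij
      simp
    · rw [if_neg hij, Pi.single_eq_of_ne hij]
      exact map_zero _
  intro h0
  rw [jac, map_sub, map_mul, map_mul] at h0
  have h00 := hd 0 0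
  have h01 := hd 0 1
  have h10 := hd 1 0
  have h11 := hd 1 1
  simp only [if_true, mul_one] at h00 h11
  rw [if_neg (by decide), mul_zero] at h01 h10
  have h2 : eval m b ^ 2 = 0 := by
    have e : eval m b ^ 2 = (eval m (α 0) * eval m (pderiv 0 p) + eval m (β 0) * eval m (pderiv 0 q)) *
        (eval m (α 1) * eval m (pderiv 1 p) + eval m (β 1) * eval m (pderiv 1 q)) -
        (eval m (α 0) * eval m (pderiv 1 p) + eval m (β 0) * eval m (pderiv 1 q)) *
        (eval m (α 1) * eval m (pderiv 0 p) + eval m (β 1) * eval m (pderiv 0 q)) := by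
      rw [h00, h01, h10, h11]
      ring
    rw [e]
    linear_combination (eval m (α 0) * eval m (β 1) - eval m (α 1) * eval m (β 0)) * h0
  exact hb (pow_eq_zero_iff two_ne_zero |>.1 h2)

theorem g_rad {g p q : RR} (hg : g ≠ 0) (hpq : IsRelPrime p q)
    (hrad : (Ideal.span {g * p, g * q}).IsRadical) : (Ideal.span {g}).IsRadical := by
  intro f hf
  obtain ⟨n, hn⟩ := hf
  rw [Ideal.mem_span_singleton] at hn ⊢
  have hfv : ∀ m, eval m g = 0 → eval m f = 0 := by
    intro m hm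
    obtain ⟨k, hk⟩ := hn
    have h1 := congrArg (eval m) hk
    rw [map_pow, map_mul, hm, zero_mul] at h1
    exact eq_zero_of_pow_eq_zero h1
  have h1 : g ∣ f * p := by
    refine dvd_of_span (p := p) (q := q) (mem_rad hrad fun m hm => ?_)
    rw [map_mul]
    rcases VZ_mul hm with h2 | h2
    · rw [hfv m h2, zero_mul]
    · rw [h2.1, mul_zero]
  have h2 : g ∣ f * q := by
    refine dvd_of_span (p := p) (q := q) (mem_rad hrad fun m hm => ?_)
    rw [map_mul]
    rcases VZ_mul hm with h2 | h2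
    · rw [hfv m h2, zero_mul]
    · rw [h2.2, mul_zero]
  obtain ⟨g', f', c, hgf, hcg, hcf⟩ := UniqueFactorizationMonoid.exists_reduced_factors g hg f
  have hc : c ≠ 0 := by
    rintro rfl
    rw [zero_mul] at hcg
    exact hg hcg.symm
  rw [← hcg, ← hcf, mul_assoc] at h1 h2
  have h3 : g' ∣ f' * p := (mul_dvd_mul_iff_left hc).1 h1
  have h4 : g' ∣ f' * q := (mul_dvd_mul_iff_left hc).1 h2
  have h5 := hpq (hgf.dvd_of_dvd_mul_left h3) (hgf.dvd_of_dvd_mul_left h4)
  rw [← hcg, ← hcf]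
  exact mul_dvd_mul_left c (h5.dvd)

end Pool.Agent.H13.TD
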