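import Mathlib
import Pool.Agent.H13.TD.Rad
import Pool.Agent.H13.TD.QS

/-!
# Globalisation for radical ideals `(p, q)`
-/

set_option autoImplicit false

open MvPolynomial

namespace Pool.Agent.H13.TD

open Pool.Agent.H41.TS

/-- `C (r₀) d/dz` -/
noncomputable def dlA {A : Type} [CommRing A] (r₀ : MvPolynomial (Fin 2) A) :
    Derivation (MvPolynomial (Fin 2) A) (Polynomial (MvPolynomial (Fin 2) A))
      (Polynomial (MvPolynomial (Fin 2) A)) := (Polynomial.C r₀) • Polynomial.derivative'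

theorem dlA_apply {A : Type} [CommRing A] (r₀ : MvPolynomial (Fin 2) A)
    (f : Polynomial (MvPolynomial (Fin 2) A)) :
    dlA r₀ f = Polynomial.C r₀ * Polynomial.derivative f := rfl

/-- if `D` has a slice then `D z` is a unit modulo `p`, `q` -/
theorem unit_mod {A : Type} [CommRing A] (φ : RR →+* A) {p q : RR} (hp : φ p = 0) (hq : φ q = 0)
    {D : Derivation RR BB BB} (hx : D (X 0) = C p) (hy : D (X 1) = C q) {r : SS}
    (hz : D (X 2) = inc r) {s : BB} (hs : D s = 1) : IsUnit (MvPolynomial.map φ r) := by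
  set φC : RR →+* Polynomial (MvPolynomial (Fin 2) A) :=
    (Polynomial.C (R := MvPolynomial (Fin 2) A)).comp
      ((C : A →+* MvPolynomial (Fin 2) A).comp φ) with hφC
  have hφCr : ∀ r, φC r = Polynomial.C (C (φ r)) := fun r => rfl
  set E : BB →+* Polynomial (MvPolynomial (Fin 2) A) :=
    eval₂Hom φC ![Polynomial.C (X 0), Polynomial.C (X 1), Polynomial.X] with hE
  have hEC : ∀ r, E (C r) = Polynomial.C (C (φ r)) := fun r => by rw [hE, eval₂Hom_C, hφCr]
  have hE0 : E (X 0) = Polynomial.C (X 0) := by rw [hE, eval₂Hom_X']; rfl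
  have hE1 : E (X 1) = Polynomial.C (X 1) := by rw [hE, eval₂Hom_X']; rfl
  have hE2 : E (X 2) = Polynomial.X := by rw [hE, eval₂Hom_X']; rfl
  have hEinc : ∀ f, E (inc f) = Polynomial.C (MvPolynomial.map φ f) := by
    intro f
    have h1 : E.comp (inc : SS →ₐ[RR] BB).toRingHom =
        (Polynomial.C (R := MvPolynomial (Fin 2) A)).comp (MvPolynomial.map φ) := by
      refine MvPolynomial.ringHom_ext ?_ ?_
      · intro r
        have h2 : (inc : SS →ₐ[RR] BB).toRingHom (C r) = C r := inc_C r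
        rw [RingHom.comp_apply, h2, hEC, RingHom.comp_apply, map_C]
      · intro i
        rw [RingHom.comp_apply, RingHom.comp_apply, map_X]
        have h4 : ∀ g, (inc : SS →ₐ[RR] BB).toRingHom g = inc g := fun g => rfl
        rw [h4]
        fin_cases i
        · simp only [Fin.zero_eta]
          rw [inc_X0, hE0]
        · simp only [Fin.mk_one]
          rw [inc_X1, hE1]
    exact RingHom.congr_fun h1 f
  have hcommE : ∀ f, E (D f) = Polynomial.C (MvPolynomial.map φ r) *
      Polynomial.derivative (E f) := by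
    intro f
    refine comm_of_gens E (dlA (MvPolynomial.map φ r)) D ?_ ?_ f
    · intro r'
      rw [hEC, dlA_apply, Polynomial.derivative_C, mul_zero]
    · intro i
      rw [dlA_apply]
      fin_cases i
      · simp only [Fin.zero_eta]
        rw [hx, hEC, hE0, hp, Polynomial.derivative_C, C_0, map_zero, mul_zero]
      · simp only [Fin.mk_one]
        rw [hy, hEC, hE1, hq, Polynomial.derivative_C, C_0, map_zero, mul_zero]
      · simp only [Fin.reduceFinMk]
        rw [hz, hEinc, hE2, Polynomial.derivative_X, mul_one]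
  have h1 : Polynomial.C (MvPolynomial.map φ r) * Polynomial.derivative (E s) = 1 := by
    rw [← hcommE, hs, map_one]
  exact Polynomial.isUnit_C.1 (IsUnit.of_mul_eq_one _ h1)

theorem D0_smul (g p q : RR) (f : SS) : D0 (g * p) (g * q) f = C g * D0 p q f := by
  induction f using MvPolynomial.induction_on with
  | C r => rw [D0_C, D0_C, mul_zero]
  | add f h hf hh => rw [map_add, map_add, hf, hh, mul_add]
  | mul_X f i hf =>
    rw [D0_mul, D0_mul, hf]
    have h1 : D0 (g * p) (g * q) (X i) = C g * D0 p q (X i) := by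
      fin_cases i
      · simp only [Fin.zero_eta]
        rw [D0_X0, D0_X0, C_mul]
      · simp only [Fin.mk_one]
        rw [D0_X1, D0_X1, C_mul]
    rw [h1]
    ring

theorem unit_mod_g {g : RR} (hrad : (Ideal.span {g}).IsRadical) {r : SS}
    (hr : IsUnit (MvPolynomial.map (Ideal.Quotient.mk (Ideal.span {g})) r)) :
    ∃ (r₀ : RR) (r₁ : SS), r = C r₀ + C g * r₁ := by
  have hred : IsReduced (RR ⧸ Ideal.span {g}) := Ideal.isRadical_iff_quotient_reduced _ |>.1 hrad
  rw [isUnit_iff_eq_C_of_isReduced] at hr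
  obtain ⟨c, -, hc⟩ := hr
  have h1 : C g ∣ r - C (r.coeff 0) := by
    rw [C_dvd_iff_dvd_coeff]
    intro d
    rw [coeff_sub, coeff_C]
    by_cases hd : 0 = d
    · rw [if_pos hd, ← hd, sub_self]
      exact dvd_zero g
    · rw [if_neg hd, sub_zero]
      have h2 := congrArg (fun f => f.coeff d) hc
      simp only [coeff_map, coeff_C] at h2
      rw [if_neg hd, Ideal.Quotient.eq_zero_iff_mem, Ideal.mem_span_singleton] at h2
      exact h2
  obtain ⟨r₁, hr₁⟩ := h1
  exact ⟨r.coeff 0, r₁, by rw [← hr₁]; ring⟩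

theorem global_rad {p q : RR} (hrad : (Ideal.span {p, q}).IsRadical)
    {D : Derivation RR BB BB} (hx : D (X 0) = C p) (hy : D (X 1) = C q) {r : SS}
    (hz : D (X 2) = inc r) {s : BB} (hs : D s = 1) : ∃ (u : RR) (w : SS), r = C u + D0 p q w := by
  by_cases h0 : p = 0 ∧ q = 0
  · obtain ⟨rfl, rfl⟩ := h0
    have h1 := unit_mod (RingHom.id RR) rfl rfl hx hy hz hs
    rw [MvPolynomial.map_id, isUnit_iff_eq_C_of_isReduced] at h1
    obtain ⟨c, -, hc⟩ := h1
    exact ⟨c, 0, by rw [hc, map_zero, add_zero]⟩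
  have hex : ∃ p' q' g : RR, IsRelPrime p' q' ∧ g * p' = p ∧ g * q' = q := by
    by_cases hp : p = 0
    · have hq : q ≠ 0 := fun h => h0 ⟨hp, h⟩
      exact UniqueFactorizationMonoid.exists_reduced_factors' p q hq
    · exact UniqueFactorizationMonoid.exists_reduced_factors p hp q
  obtain ⟨p', q', g, hcop, rfl, rfl⟩ := hex
  have hg : g ≠ 0 := by
    rintro rfl
    exact h0 ⟨zero_mul _, zero_mul _⟩
  have hgr := g_rad hg hcop hrad
  have hgmk : (Ideal.Quotient.mk (Ideal.span {g})) g = 0 :=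
    Ideal.Quotient.eq_zero_iff_mem.2 (Ideal.mem_span_singleton_self g)
  obtain ⟨r₀, r₁, hr⟩ := unit_mod_g hgr (unit_mod (Ideal.Quotient.mk (Ideal.span {g}))
    (by rw [map_mul, hgmk, zero_mul]) (by rw [map_mul, hgmk, zero_mul]) hx hy hz hs)
  obtain ⟨K, w, hw⟩ := pow_p p' q' r₁
  obtain ⟨K', w', hw'⟩ := pow_q p' q' r₁
  have h : Jd (g * p') (g * q') r = ⊤ := by
    refine null (p := p') (q := q') _ K K' ⟨p' ^ K * r₀, w, ?_⟩ ⟨q' ^ K' * r₀, w', ?_⟩
      fun m hp hq => ?_
    · rw [D0_smul, ← hw, hr, C_mul]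
      ring
    · rw [D0_smul, ← hw', hr, C_mul]
      ring
    · have hp1 : eval m (g * p') = 0 := by rw [map_mul, hp, mul_zero]
      have hq1 : eval m (g * q') = 0 := by rw [map_mul, hq, mul_zero]
      obtain ⟨b₀, hb₀, hI⟩ := rad_loc hg hcop hrad (m := m) ⟨hp, hq⟩
      obtain ⟨b, hb, u, w, hb'⟩ := loc_const hp1 hq1 (jac_ne hp1 hq1 hb₀ hI) hx hy hz hs
      exact ⟨b, ⟨u, w, hb'⟩, hb⟩
  have h1 : (1 : RR) ∈ Jd (g * p') (g * q') r := by rw [h]; trivial
  obtain ⟨u, w, h2⟩ := h1
  exact ⟨u, w, by rw [← h2, C_1, one_mul]⟩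

/-- `D x = p`, `D y = q`, `D z = r(x, y)` with a slice -/
theorem main_rad0 {p q : RR} (hrad : (Ideal.span {p, q}).IsRadical)
    {D : Derivation RR BB BB} (hx : D (X 0) = C p) (hy : D (X 1) = C q) {r : SS}
    (hz : D (X 2) = inc r) {s : BB} (hs : D s = 1) :
    (∃ (u : RR) (w : SS), D (X 2) = C u + D (inc w) ∧ Ideal.span {p, q, u} = ⊤) ∧
    ∃ φ : SS →ₐ[RR] BB, Function.Injective φ ∧ ∀ f : BB, D f = 0 ↔ f ∈ φ.range := by
  obtain ⟨u, w, hr⟩ := global_rad hrad hx hy hz hs
  have hu : ∀ m ∈ VZ p q, eval m u ≠ 0 := fun m hm => u_ne hm.1 hm.2 hx hy hz hs hr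
  have hz1 : D (X 2) = C u + D (inc w) := by
    rw [hz, hr, map_add, inc_C, inc_D0 hx hy]
  exact ⟨⟨u, w, hz1, unimod hu⟩, ker_lin (unimod hu) hx hy hz1⟩

end Pool.Agent.H13.TD
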