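import Mathlib
import Pool.Agent.H41.TS.Main
import Pool.Agent.H13.TD.RadGlob

/-!
# Main theorem for radical ideals `(p, q)`
-/

set_option autoImplicit false

open MvPolynomial

namespace Pool.Agent.H13.TD

open Pool.Agent.H41.TS

theorem main_rad {p q : RR} (hrad : (Ideal.span {p, q}).IsRadical)
    {D : Derivation RR BB BB} (hx : D (X 0) = C p)
    (hy : ∃ u : Polynomial RR, D (X 1) = C q + C p * Polynomial.aeval (X 0) u)
    (hz : D (X 2) ∈ Algebra.adjoin RR {(X 0 : BB), (X 1 : BB)}) :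
    ((∃ s, D s = 1) ↔ ∃ u : RR, ∃ w ∈ Algebra.adjoin RR {(X 0 : BB), (X 1 : BB)},
      D (X 2) = C u + D w ∧ Ideal.span {p, q, u} = ⊤) ∧
    ((∃ s, D s = 1) →
      ∃ φ : SS →ₐ[RR] BB, Function.Injective φ ∧ ∀ f : BB, D f = 0 ↔ f ∈ φ.range) := by
  obtain ⟨u₀, hy⟩ := hy
  obtain ⟨U, rfl⟩ := exists_antideriv u₀
  rw [adjoin_eq] at hz ⊢
  have key : (∃ s, D s = 1) → (∃ u : RR, ∃ w ∈ (inc : SS →ₐ[RR] BB).range,
      D (X 2) = C u + D w ∧ Ideal.span {p, q, u} = ⊤) ∧
      ∃ φ : SS →ₐ[RR] BB, Function.Injective φ ∧ ∀ f : BB, D f = 0 ↔ f ∈ φ.range := by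
    rintro ⟨s, hs⟩
    obtain ⟨r, hr⟩ := hz
    have hr' : D (X 2) = inc r := hr.symm
    set D' := conj U D with hD'
    have hx' : D' (X 0) = C p := by
      rw [hD', conj_apply, sh_X0, hx]
      exact (sh U).commutes p
    have hy' : D' (X 1) = C q := by
      rw [hD', conj_apply, sh_X1, map_neg, map_add, map_neg, D_pol D hx, hy]
      have e : C q + C p * Polynomial.aeval (X 0) (Polynomial.derivative U) +
          -(Polynomial.aeval (X 0) (Polynomial.derivative U) * C p) = (C q : BB) := by ring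
      rw [e]
      exact (sh U).commutes q
    obtain ⟨r', hr''⟩ := sh_inc U r
    have hz' : D' (X 2) = inc r' := by
      rw [hD', conj_apply, sh_X2, hr', hr'']
    have hinv : ∀ f, sh (-U) (sh U f) = f := sh_sh (-U) U (neg_add_cancel U)
    have hinv' : ∀ f, sh U (sh (-U) f) = f := sh_sh U (-U) (add_neg_cancel U)
    have hs' : D' (sh U s) = 1 := by
      rw [hD', conj_apply, hinv, hs, map_one]
    obtain ⟨⟨u, w, hw, hun⟩, φ, hφ, hker⟩ := main_rad0 hrad hx' hy' hz' hs'
    constructor
    · obtain ⟨w', hw'⟩ := sh_inc (-U) w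
      refine ⟨u, inc w', ⟨w', rfl⟩, ?_, hun⟩
      have h1 := congrArg (sh (-U)) hw
      have h2 : sh (-U) (C u) = C u := (sh (-U)).commutes _
      rw [hD', conj_apply, conj_apply, sh_X2, hinv, map_add, hinv, h2, hw'] at h1
      exact h1
    · refine ⟨(sh (-U)).comp φ, ?_, fun f => ?_⟩
      · intro f g hfg
        rw [AlgHom.comp_apply, AlgHom.comp_apply] at hfg
        apply hφ
        rw [← hinv' (φ f), hfg, hinv']
      · have h3 : D f = 0 ↔ D' (sh U f) = 0 := by
          rw [hD', conj_apply, hinv]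
          constructor
          · intro h; rw [h, map_zero]
          · intro h
            have := congrArg (sh (-U)) h
            rwa [hinv, map_zero] at this
        rw [h3, hker]
        constructor
        · rintro ⟨g, hg⟩
          refine ⟨g, ?_⟩
          have hg' : φ g = sh U f := hg
          change sh (-U) (φ g) = f
          rw [hg', hinv]
        · rintro ⟨g, hg⟩
          refine ⟨g, ?_⟩
          have hg' : sh (-U) (φ g) = f := hg
          change φ g = sh U f
          rw [← hg', hinv']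
  refine ⟨⟨fun h => (key h).1, ?_⟩, fun h => (key h).2⟩
  rintro ⟨u, w, -, hw, hun⟩
  have h2 : (1 : RR) ∈ Ideal.span {p, q, u} := by
    rw [hun]
    trivial
  obtain ⟨β, γ, α, h3⟩ := Submodule.mem_span_triple.1 h2
  rw [smul_eq_mul, smul_eq_mul, smul_eq_mul] at h3
  refine ⟨C β * X 0 + C γ * (X 1 - Polynomial.aeval (X 0) U) + C α * (X 2 - w), ?_⟩
  have h4 : (C (β * p + γ * q + α * u) : BB) = 1 := by rw [h3, C_1]
  rw [map_add, map_add, Derivation.leibniz, Derivation.leibniz, Derivation.leibniz, D_C, D_C, D_C,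
    smul_zero, smul_zero, smul_zero, add_zero, add_zero, add_zero, map_sub, map_sub, hx, hy, hw,
    D_pol D hx, smul_eq_mul, smul_eq_mul, smul_eq_mul]
  simp only [C_add, C_mul] at h4
  linear_combination h4

end Pool.Agent.H13.TD
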